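import Pool.Agent.Work.MP_6d7bb4_psv.Interface

/-!
# MP_6d7bb4 (psv), block ACT: elements of `U` that fix the base point lift
-/

set_option autoImplicit false

namespace Pool.Agent.Work.MP_6d7bb4_psv

theorem ACT_ex {D X : Type} (C : CovDat D X) {g : Equiv.Perm X} (hg : g ∈ C.U) {w w' : W D}
    (hw : C.p w' = g (C.p w)) (j : D) : ∃ ν, C.p (rm ν w') = g (C.p (rm j w)) := by
  have hk : (C.q w')⁻¹ * g * C.q w ∈ C.U :=
    C.U.mul_mem (C.U.mul_mem (C.U.inv_mem (C.q_mem w')) hg) (C.q_mem w)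
  have hk0 : ((C.q w')⁻¹ * g * C.q w) C.x0 = C.x0 := by
    show (C.q w')⁻¹ (g (C.q w C.x0)) = C.x0
    rw [Equiv.Perm.inv_eq_iff_eq]
    exact hw.symm
  obtain ⟨ν, hν⟩ := C.stab _ hk hk0 j
  refine ⟨ν, ?_⟩
  rw [C.p_rm, C.p_rm, ← hν]
  show C.q w' ((C.q w')⁻¹ (g (C.q w (C.n j)))) = g (C.q w (C.n j))
  exact Equiv.apply_symm_apply (C.q w') _

/-- the lift on lists -/
noncomputable def ACT_h {D X : Type} (C : CovDat D X) (g : Equiv.Perm X) (hg : g ∈ C.U)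
    (hx : g C.x0 = C.x0) : (u : List D) → (hu : u.IsChain (· ≠ ·)) →
      {w' : W D // C.p w' = g (C.p ⟨u, hu⟩)}
  | [], _ => ⟨root D, hx.symm⟩
  | j :: u, hu =>
    ⟨rm (Classical.choose (ACT_ex C hg (ACT_h C g hg hx u (ct hu)).2 j))
        (ACT_h C g hg hx u (ct hu)).1, by
      have h := Classical.choose_spec (ACT_ex C hg (ACT_h C g hg hx u (ct hu)).2 j)
      exact h.trans (congrArg (fun w => g (C.p w)) (rm_cons j u hu).symm)⟩

theorem ACT_fun {D X : Type} (C : CovDat D X) (g : Equiv.Perm X) (hg : g ∈ C.U)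
    (hx : g C.x0 = C.x0) : ∃ H : W D → W D, H (root D) = root D ∧ (∀ w, C.p (H w) = g (C.p w)) ∧
      ∀ w j, ∃ ν, H (rm j w) = rm ν (H w) := by
  refine ⟨fun w => (ACT_h C g hg hx w.1 w.2).1, rfl, fun w => (ACT_h C g hg hx w.1 w.2).2, ?_⟩
  have key : ∀ (j : D) (u : List D) (h : (j :: u).IsChain (· ≠ ·)), ∃ ν,
      (ACT_h C g hg hx (j :: u) h).1 = rm ν (ACT_h C g hg hx u (ct h)).1 :=
    fun j u h => ⟨_, rfl⟩
  rintro ⟨u, hu⟩ j
  cases u with
  | nil => exact key j [] _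
  | cons i u =>
    by_cases hij : i = j
    · subst hij
      obtain ⟨ν, hν⟩ := key i u hu
      refine ⟨ν, ?_⟩
      rw [rm_same]
      show (ACT_h C g hg hx u (ct hu)).1 = rm ν (ACT_h C g hg hx (i :: u) hu).1
      rw [hν, rm_rm]
    · rw [rm_ne hij]
      exact key j (i :: u) _

theorem ACT_id {D X : Type} (C : CovDat D X) (K : W D → W D) (h0 : K (root D) = root D)
    (hp : ∀ w, C.p (K w) = C.p w) (hs : ∀ w j, ∃ ν, K (rm j w) = rm ν (K w)) (w : W D) :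
    K w = w := by
  refine W_ind (P := fun w => K w = w) h0 (fun j w ih => ?_) w
  obtain ⟨ν, hν⟩ := hs w j
  rw [ih] at hν
  have h1 := hp (rm j w)
  rw [hν] at h1
  rw [hν, C.p_rm_inj h1]

theorem p_ACT : Stmt_ACT := by
  intro D X C g hg hx
  have hx' : g⁻¹ C.x0 = C.x0 := by
    rw [Equiv.Perm.inv_eq_iff_eq]
    exact hx.symm
  obtain ⟨H, hH0, hHp, hHs⟩ := ACT_fun C g hg hx
  obtain ⟨K, hK0, hKp, hKs⟩ := ACT_fun C g⁻¹ (C.U.inv_mem hg) hx'
  have h1 : ∀ w, K (H w) = w := by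
    refine ACT_id C (fun w => K (H w)) ?_ ?_ ?_
    · show K (H (root D)) = root D
      rw [hH0, hK0]
    · intro w
      show C.p (K (H w)) = C.p w
      rw [hKp, hHp]
      exact Equiv.symm_apply_apply g _
    · intro w j
      obtain ⟨ν, hν⟩ := hHs w j
      obtain ⟨ν', hν'⟩ := hKs (H w) ν
      exact ⟨ν', by show K (H (rm j w)) = rm ν' (K (H w)); rw [hν, hν']⟩
  have h2 : ∀ w, H (K w) = w := by
    refine ACT_id C (fun w => H (K w)) ?_ ?_ ?_
    · show H (K (root D)) = root D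
      rw [hK0, hH0]
    · intro w
      show C.p (H (K w)) = C.p w
      rw [hHp, hKp]
      exact Equiv.apply_symm_apply g _
    · intro w j
      obtain ⟨ν, hν⟩ := hKs w j
      obtain ⟨ν', hν'⟩ := hHs (K w) ν
      exact ⟨ν', by show H (K (rm j w)) = rm ν' (H (K w)); rw [hν, hν']⟩
  have a1 : ∀ v w, (WG D).Adj v w → (WG D).Adj (H v) (H w) := by
    rintro v w ⟨j, rfl⟩
    obtain ⟨ν, hν⟩ := hHs v j
    exact ⟨ν, hν⟩
  have a2 : ∀ v w, (WG D).Adj v w → (WG D).Adj (K v) (K w) := by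
    rintro v w ⟨j, rfl⟩
    obtain ⟨ν, hν⟩ := hKs v j
    exact ⟨ν, hν⟩
  refine ⟨⟨⟨H, K, h1, h2⟩, ?_⟩, hH0, hHp⟩
  intro v w
  constructor
  · intro h
    have h3 := a2 _ _ h
    have h4 : K ((⟨H, K, h1, h2⟩ : W D ≃ W D) v) = v := h1 v
    have h5 : K ((⟨H, K, h1, h2⟩ : W D ≃ W D) w) = w := h1 w
    rwa [h4, h5] at h3
  · exact a1 v w

end Pool.Agent.Work.MP_6d7bb4_psv
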