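import Pool.Agent.Work.MP_6d7bb4_psv.Interface

/-!
# ARC: transitivity on arcs
-/

set_option autoImplicit false

namespace Pool.Agent.Work.MP_6d7bb4_psv

/-- local transitivity -/
theorem ARC_loc {Ω V : Type} {F : Subgroup (Equiv.Perm Ω)} {Γ : SimpleGraph V}
    {H : Subgroup (Γ ≃g Γ)} (hF : Transitive F) (hL : LocAct H F) (x y z : V) (hxy : Γ.Adj x y)
    (hxz : Γ.Adj x z) : ∃ g ∈ H, g x = x ∧ g y = z := by
  obtain ⟨e, he⟩ := hL x
  obtain ⟨σ, hσ, hs⟩ := hF (e ⟨y, hxy⟩) (e ⟨z, hxz⟩)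
  obtain ⟨g, hg, h1, h2⟩ := (he σ).1 hσ
  refine ⟨g, hg, h1, ?_⟩
  have h3 := h2 ⟨y, hxy⟩
  rw [hs, Equiv.symm_apply_apply] at h3
  exact h3

theorem p_ARC : Stmt_ARC := by
  intro Ω V F Γ H hΓ hF hL hor
  have hloc := fun x y z hxy hxz => ARC_loc hF hL x y z hxy hxz
  have hV : VTrans H := by
    rcases hor with h | h
    · exact h
    · obtain ⟨g, hg, x0, y0, hadj, h1, h2, _⟩ := h
      have key : ∀ y : V, ∃ k ∈ H, k x0 = y := by
        intro y
        have hr : Γ.Reachable x0 y := hΓ.preconnected x0 y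
        obtain ⟨w⟩ := hr
        -- closure under adjacency
        have hstep : ∀ x z : V, (∃ k ∈ H, k x0 = x) → Γ.Adj x z → ∃ k ∈ H, k x0 = z := by
          rintro x z ⟨k, hk, rfl⟩ hxz
          have hx0 : Γ.Adj x0 (k.symm z) := by
            rw [← k.map_adj_iff, RelIso.apply_symm_apply]
            exact hxz
          obtain ⟨l, hl, hl1, hl2⟩ := hloc x0 y0 (k.symm z) hadj hx0
          refine ⟨k * l * g, H.mul_mem (H.mul_mem hk hl) hg, ?_⟩
          show k (l (g x0)) = z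
          rw [h1, hl2, RelIso.apply_symm_apply]
        have hwalk : ∀ (a b : V), Γ.Walk a b → (∃ k ∈ H, k x0 = a) → ∃ k ∈ H, k x0 = b := by
          intro a b w
          induction w with
          | nil => exact fun h => h
          | cons hadj _ ih => exact fun h => ih (hstep _ _ h hadj)
        exact hwalk x0 y w ⟨1, H.one_mem, rfl⟩
      intro x y
      obtain ⟨k, hk, e⟩ := key x
      obtain ⟨l, hl, e'⟩ := key y
      refine ⟨l * k⁻¹, H.mul_mem hl (H.inv_mem hk), ?_⟩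
      show l (k.symm x) = y
      rw [← e, RelIso.symm_apply_apply, e']
  refine ⟨?_, hV⟩
  intro x y x' y' hxy hxy'
  obtain ⟨g, hg, e⟩ := hV x x'
  have h1 : Γ.Adj x' (g y) := by
    rw [← e]
    exact g.map_adj_iff.2 hxy
  obtain ⟨l, hl, hl1, hl2⟩ := hloc x' (g y) y' h1 hxy'
  refine ⟨l * g, H.mul_mem hl hg, ?_, ?_⟩
  · show l (g x) = x'
    rw [e, hl1]
  · show l (g y) = y'
    exact hl2

end Pool.Agent.Work.MP_6d7bb4_psv
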