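import Pool.Agent.Work.MP_6d7bb4_psv.Interface

/-! # Block BND (helper96) -/

set_option autoImplicit false

namespace Pool.Agent.Work.MP_6d7bb4_psv

theorem p_BND (hT : Stmt_TREE) (hA : Stmt_ACT) (hL : Stmt_LFP) (hW : Stmt_WR) : Stmt_BND := by
  intro Ω _ hne F hQ V Γ hΓ o
  obtain ⟨S, hS⟩ := hQ (W (Ω × Ω)) (WG (Ω × Ω)) (hT (Ω × Ω))
  refine ⟨S.sup (fun K => Nat.card {h : WG (Ω × Ω) ≃g WG (Ω × Ω) //
    h ∈ K ∧ h (root (Ω × Ω)) = root (Ω × Ω)}), ?_⟩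
  intro H hfin hloc harc
  obtain ⟨C, hC1, hC2, hC3, hC4⟩ := hW Ω V F Γ H o hΓ.1.connected hfin hloc harc
  obtain ⟨hL1, hL2, hL3, hL4⟩ := hL (Ω × Ω) (V × V) C
    (hne.elim fun a => ⟨(a, a)⟩) hC1 (prodAct F) hC2
  obtain ⟨K, hK, a, hKa⟩ := hS C.Lf ⟨hL1, hL2, hL3⟩
  refine le_trans ?_ (Finset.le_sup (f := fun K => Nat.card {h : WG (Ω × Ω) ≃g WG (Ω × Ω) //
    h ∈ K ∧ h (root (Ω × Ω)) = root (Ω × Ω)}) hK)
  have hmem : ∀ h : WG (Ω × Ω) ≃g WG (Ω × Ω), h ∈ C.Lf ↔ a⁻¹ * h * a ∈ K := by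
    intro h
    rw [hKa, Subgroup.mem_map]
    constructor
    · rintro ⟨k, hk, rfl⟩
      have : a⁻¹ * (MulAut.conj a).toMonoidHom k * a = k := by
        show a⁻¹ * (a * k * a⁻¹) * a = k
        group
      rw [this]
      exact hk
    · intro h1
      refine ⟨_, h1, ?_⟩
      show a * (a⁻¹ * h * a) * a⁻¹ = h
      group
  obtain ⟨l, hl, hlr⟩ := hL4 (a (root (Ω × Ω))) (root (Ω × Ω))
  set m := a⁻¹ * l * a with hm
  have hmK : m ∈ K := (hmem l).1 hl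
  set c := l * a with hc
  have hcm : c = a * m := by rw [hc, hm]; group
  have hcr : c (root (Ω × Ω)) = root (Ω × Ω) := hlr
  have hcr' : c⁻¹ (root (Ω × Ω)) = root (Ω × Ω) := by
    conv_lhs => rw [← hcr]
    exact RelIso.inv_apply_self c _
  have hmem2 : ∀ h : WG (Ω × Ω) ≃g WG (Ω × Ω), h ∈ C.Lf ↔ c⁻¹ * h * c ∈ K := by
    intro h
    have h1 : c⁻¹ * h * c = m⁻¹ * (a⁻¹ * h * a) * m := by rw [hcm]; group
    rw [h1, hmem h]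
    constructor
    · intro h2
      exact K.mul_mem (K.mul_mem (K.inv_mem hmK) h2) hmK
    · intro h2
      have h3 := K.mul_mem (K.mul_mem hmK h2) (K.inv_mem hmK)
      have h4 : m * (m⁻¹ * (a⁻¹ * h * a) * m) * m⁻¹ = a⁻¹ * h * a := by group
      rwa [h4] at h3
  have hroot : ∀ h : WG (Ω × Ω) ≃g WG (Ω × Ω), h (root (Ω × Ω)) = root (Ω × Ω) →
      (c⁻¹ * h * c) (root (Ω × Ω)) = root (Ω × Ω) := by
    intro h hh
    show c⁻¹ (h (c (root (Ω × Ω)))) = root (Ω × Ω)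
    rw [hcr, hh, hcr']
  have hroot' : ∀ h : WG (Ω × Ω) ≃g WG (Ω × Ω), h (root (Ω × Ω)) = root (Ω × Ω) →
      (c * h * c⁻¹) (root (Ω × Ω)) = root (Ω × Ω) := by
    intro h hh
    show c (h (c⁻¹ (root (Ω × Ω)))) = root (Ω × Ω)
    rw [hcr', hh, hcr]
  -- finiteness
  have hfinK : Finite {h : WG (Ω × Ω) ≃g WG (Ω × Ω) //
      h ∈ K ∧ h (root (Ω × Ω)) = root (Ω × Ω)} := by
    have h1 := hL1 (root (Ω × Ω))
    have h2 : Finite {g : WG (Ω × Ω) ≃g WG (Ω × Ω) //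
        g ∈ C.Lf ∧ g (root (Ω × Ω)) = root (Ω × Ω)} := h1.to_subtype
    refine Finite.of_injective (β := {g : WG (Ω × Ω) ≃g WG (Ω × Ω) //
        g ∈ C.Lf ∧ g (root (Ω × Ω)) = root (Ω × Ω)})
      (fun k => ⟨c * k.1 * c⁻¹, ?_, hroot' k.1 k.2.2⟩) ?_
    · rw [hmem2]
      have h3 : c⁻¹ * (c * k.1 * c⁻¹) * c = k.1 := by group
      rw [h3]
      exact k.2.1
    · intro k k' hkk
      have h3 : c * k.1 * c⁻¹ = c * k'.1 * c⁻¹ := congrArg Subtype.val hkk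
      exact Subtype.ext (mul_left_cancel (mul_right_cancel h3))
  -- the lifts
  have hlift : ∀ g : {g : Γ ≃g Γ // g ∈ H ∧ g o = o}, ∃ h : WG (Ω × Ω) ≃g WG (Ω × Ω),
      h (root (Ω × Ω)) = root (Ω × Ω) ∧ h ∈ C.Lf ∧
        ∀ w, C.p (h w) = (g.1 (C.p w).1, (C.p w).2) := by
    rintro ⟨g, hg1, hg2⟩
    obtain ⟨u, hu1, hu2, hu3⟩ := hC3 g hg1 hg2
    obtain ⟨h, hh1, hh2⟩ := hA (Ω × Ω) (V × V) C u hu1 hu2
    exact ⟨h, hh1, C.mem_Lf.2 ⟨u, hu1, hh2⟩, fun w => by rw [hh2 w]; exact hu3 _ _⟩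
  choose φ hφ1 hφ2 hφ3 using hlift
  refine Nat.card_le_card_of_injective (fun g => ⟨c⁻¹ * φ g * c, (hmem2 _).1 (hφ2 g),
    hroot _ (hφ1 g)⟩) ?_
  intro g g' hgg
  have h1 : c⁻¹ * φ g * c = c⁻¹ * φ g' * c := congrArg Subtype.val hgg
  have h2 : φ g = φ g' := mul_left_cancel (mul_right_cancel h1)
  refine Subtype.ext (RelIso.ext fun v => ?_)
  obtain ⟨w, hw⟩ := hC4 v
  have h3 := hφ3 g w
  rw [h2, hφ3 g' w, hw] at h3
  exact (congrArg Prod.fst h3).symm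

end Pool.Agent.Work.MP_6d7bb4_psv
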