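import Pool.Agent.Work.MP_6d7bb4_psv.Interface
import Pool.Agent.Work.MP_6d7bb4_helper94.Conj

/-! # Block CNJ (helper96) -/

set_option autoImplicit false

namespace Pool.Agent.Work.MP_6d7bb4_psv

open Pool.Agent.Work.MP_6d7bb4.helper94.Tr (inv_app app_inv mul_app adj_iso conn_ind')

section
variable {I V : Type} {Γ : SimpleGraph V} {o y : V} {m : I → I → I} {b : I → Prop} {t : I → I}
  {e : I} {v : I → I} {α α' : I → (Γ ≃g Γ)} {s s' : Γ ≃g Γ}

theorem CNJ_a (α α' : I → (Γ ≃g Γ)) (s s' : Γ ≃g Γ) (i : I) : (α i, α' i) ∈ Rel α α' s s' :=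
  Subgroup.subset_closure (Or.inl ⟨i, rfl⟩)

theorem CNJ_s (α α' : I → (Γ ≃g Γ)) (s s' : Γ ≃g Γ) : (s, s') ∈ Rel α α' s s' :=
  Subgroup.subset_closure (Or.inr rfl)

theorem CNJ_swap {g g' : Γ ≃g Γ} (h : (g, g') ∈ Rel α α' s s') : (g', g) ∈ Rel α' α s' s := by
  have h1 : Rel α α' s s' ≤ (Rel α' α s' s).comap
      (MulEquiv.prodComm (M := (Γ ≃g Γ)) (N := (Γ ≃g Γ))).toMonoidHom := by
    unfold Rel
    rw [Subgroup.closure_le]
    rintro x (⟨i, rfl⟩ | hx)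
    · exact CNJ_a α' α s' s i
    · rw [Set.mem_singleton_iff] at hx
      subst hx
      exact CNJ_s α' α s' s
  exact h1 h

theorem CNJ_fix (hNF : Stmt_NF) (hDST : Stmt_DST) (hT : Γ.IsTree) (hoy : Γ.Adj o y)
    (h : Tab Γ o y m b t e v α s) (h' : Tab Γ o y m b t e v α' s') {g g' : Γ ≃g Γ}
    (hr : (g, g') ∈ Rel α α' s s') (hg : g o = o) : ∃ i, g = α i ∧ g' = α' i := by
  obtain ⟨w, j, hw, hx⟩ := hNF I V Γ o y m b t e v α α' s s' h h' _ hr
  have h1 : g = E α s w * α j := congrArg Prod.fst hx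
  have h2 : g' = E α' s' w * α' j := congrArg Prod.snd hx
  have h3 := hDST I V Γ hT o y hoy m b t e v α s h w hw
  have h4 : E α s w o = o := by
    rw [h1, mul_app, h.fix] at hg
    exact hg
  rw [h4, SimpleGraph.dist_self] at h3
  have h5 : w = [] := List.eq_nil_of_length_eq_zero h3.symm
  subst h5
  exact ⟨j, by rw [h1]; exact one_mul _, by rw [h2]; exact one_mul _⟩

theorem CNJ_step (hoy : Γ.Adj o y) (h : Tab Γ o y m b t e v α s)
    (h' : Tab Γ o y m b t e v α' s') {g g' : Γ ≃g Γ} (hr : (g, g') ∈ Rel α α' s s') {w : V}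
    (hw : Γ.Adj (g o) w) :
    ∃ k k', (k, k') ∈ Rel α α' s s' ∧ k o = w ∧ Γ.Adj (g' o) (k' o) := by
  have h1 : Γ.Adj o (g⁻¹ w) := by
    have := adj_iso g⁻¹ hw
    rwa [inv_app] at this
  obtain ⟨i, hi⟩ := h.loc _ h1
  refine ⟨g * α i * s, g' * α' i * s', ?_, ?_, ?_⟩
  · exact (Rel α α' s s').mul_mem ((Rel α α' s s').mul_mem hr (CNJ_a α α' s s' i))
      (CNJ_s α α' s s')
  · rw [mul_app, mul_app, h.so, hi, app_inv]
  · rw [mul_app, mul_app, h'.so]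
    refine adj_iso g' ?_
    have h2 := adj_iso (α' i) hoy
    rwa [h'.fix] at h2

theorem CNJ_surj (hc : Γ.Connected) (hoy : Γ.Adj o y) (h : Tab Γ o y m b t e v α s)
    (h' : Tab Γ o y m b t e v α' s') (x : V) :
    ∃ g g', (g, g') ∈ Rel α α' s s' ∧ g o = x := by
  refine conn_ind' hc {x | ∃ g g', (g, g') ∈ Rel α α' s s' ∧ g o = x} (x := o)
    ⟨1, 1, (Rel α α' s s').one_mem, rfl⟩ ?_ x
  rintro _ ⟨g, g', hr, rfl⟩ w hw
  obtain ⟨k, k', h1, h2, -⟩ := CNJ_step hoy h h' hr hw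
  exact ⟨k, k', h1, h2⟩

theorem CNJ_f (hNF : Stmt_NF) (hDST : Stmt_DST) (hT : Γ.IsTree) (hoy : Γ.Adj o y)
    (h : Tab Γ o y m b t e v α s) (h' : Tab Γ o y m b t e v α' s') :
    ∃ f : V → V, ∀ g g', (g, g') ∈ Rel α α' s s' → f (g o) = g' o := by
  choose k k' hk1 hk2 using CNJ_surj hT.connected hoy h h'
  refine ⟨fun x => k' x o, fun g g' hr => ?_⟩
  have h1 : ((k (g o))⁻¹ * g, (k' (g o))⁻¹ * g') ∈ Rel α α' s s' :=
    (Rel α α' s s').mul_mem ((Rel α α' s s').inv_mem (hk1 (g o))) hr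
  have h2 : ((k (g o))⁻¹ * g) o = o := by
    have h0 := inv_app (k (g o)) o
    rw [hk2 (g o)] at h0
    exact h0
  obtain ⟨i, -, h3⟩ := CNJ_fix hNF hDST hT hoy h h' h1 h2
  have h4 : g' = k' (g o) * α' i := by rw [← h3]; group
  show k' (g o) o = g' o
  conv_rhs => rw [h4, mul_app, h'.fix]

theorem CNJ_adj (hc : Γ.Connected) (hoy : Γ.Adj o y) (h : Tab Γ o y m b t e v α s)
    (h' : Tab Γ o y m b t e v α' s') (f : V → V)
    (hf : ∀ g g', (g, g') ∈ Rel α α' s s' → f (g o) = g' o) (x w : V) (hxw : Γ.Adj x w) :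
    Γ.Adj (f x) (f w) := by
  obtain ⟨g, g', hr, rfl⟩ := CNJ_surj hc hoy h h' x
  obtain ⟨k, k', h1, rfl, h3⟩ := CNJ_step hoy h h' hr hxw
  rw [hf g g' hr, hf k k' h1]
  exact h3

theorem CNJ_mem {H : Subgroup (Γ ≃g Γ)} (hH : ∀ g, (g ∈ H ∧ g o = o) ↔ ∃ i, g = α i)
    (hs : s ∈ H) {g g' : Γ ≃g Γ} (hr : (g, g') ∈ Rel α α' s s') : g ∈ H := by
  have h1 : Rel α α' s s' ≤ H.comap (MonoidHom.fst (Γ ≃g Γ) (Γ ≃g Γ)) := by
    unfold Rel
    rw [Subgroup.closure_le]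
    rintro x (⟨i, rfl⟩ | hx)
    · exact ((hH (α i)).2 ⟨i, rfl⟩).1
    · rw [Set.mem_singleton_iff] at hx
      subst hx
      exact hs
  exact h1 hr

theorem CNJ_ex (hc : Γ.Connected) (hoy : Γ.Adj o y) (h : Tab Γ o y m b t e v α s)
    (h' : Tab Γ o y m b t e v α' s') {H : Subgroup (Γ ≃g Γ)}
    (hH : ∀ g, (g ∈ H ∧ g o = o) ↔ ∃ i, g = α i)
    (hs : s ∈ H) {g : Γ ≃g Γ} (hg : g ∈ H) : ∃ g', (g, g') ∈ Rel α α' s s' := by
  obtain ⟨k, k', h1, h2⟩ := CNJ_surj hc hoy h h' (g o)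
  have hk : k ∈ H := CNJ_mem hH hs h1
  have h3 : (k⁻¹ * g) o = o := by
    rw [mul_app, ← h2]
    exact inv_app _ _
  obtain ⟨i, hi⟩ := (hH (k⁻¹ * g)).1 ⟨H.mul_mem (H.inv_mem hk) hg, h3⟩
  have h4 : g = k * α i := by rw [← hi]; group
  exact ⟨k' * α' i, by
    rw [h4]; exact (Rel α α' s s').mul_mem h1 (CNJ_a α α' s s' i)⟩

end

theorem p_CNJ (hNF : Stmt_NF) (hDST : Stmt_DST) : Stmt_CNJ := by
  intro I V Γ hT o y hoy m b t e v α α' s s' h h' H H' hH hs hH' hs'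
  obtain ⟨f, hf⟩ := CNJ_f hNF hDST hT hoy h h'
  obtain ⟨f', hf'⟩ := CNJ_f hNF hDST hT hoy h' h
  have h1 : ∀ x, f' (f x) = x := by
    intro x
    obtain ⟨g, g', hr, rfl⟩ := CNJ_surj hT.connected hoy h h' x
    rw [hf g g' hr, hf' g' g (CNJ_swap hr)]
  have h2 : ∀ x, f (f' x) = x := by
    intro x
    obtain ⟨g, g', hr, rfl⟩ := CNJ_surj hT.connected hoy h' h x
    rw [hf' g g' hr, hf g' g (CNJ_swap hr)]
  let a : Γ ≃g Γ :=
    { toFun := f
      invFun := f'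
      left_inv := h1
      right_inv := h2
      map_rel_iff' := by
        intro x w
        constructor
        · intro h3
          have h4 := CNJ_adj hT.connected hoy h' h f' hf' _ _ h3
          have h5 : f' (f x) = x := h1 x
          have h6 : f' (f w) = w := h1 w
          have h7 : Γ.Adj (f' (f x)) (f' (f w)) := h4
          rwa [h5, h6] at h7
        · intro h3
          exact CNJ_adj hT.connected hoy h h' f hf _ _ h3 }
  have ha : ∀ x, a x = f x := fun _ => rfl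
  have hcomm : ∀ g g', (g, g') ∈ Rel α α' s s' → a * g * a⁻¹ = g' := by
    intro g g' hr
    rw [mul_inv_eq_iff_eq_mul]
    refine RelIso.ext fun x => ?_
    obtain ⟨k, k', hk, rfl⟩ := CNJ_surj hT.connected hoy h h' x
    rw [mul_app, mul_app, ha, ha, ← mul_app, hf _ _ ((Rel α α' s s').mul_mem hr hk), hf _ _ hk,
      mul_app]
  refine ⟨a, ?_⟩
  ext g'
  rw [Subgroup.mem_map]
  constructor
  · intro hg'
    obtain ⟨g, hr⟩ := CNJ_ex hT.connected hoy h' h hH' hs' hg'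
    have hr' := CNJ_swap hr
    exact ⟨g, CNJ_mem hH hs hr', hcomm g g' hr'⟩
  · rintro ⟨g, hg, rfl⟩
    obtain ⟨k, hr⟩ := CNJ_ex hT.connected hoy h h' hH hs hg
    have h3 : (MulAut.conj a).toMonoidHom g = k := hcomm g k hr
    rw [h3]
    exact CNJ_mem hH' hs' (CNJ_swap hr)

end Pool.Agent.Work.MP_6d7bb4_psv
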