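import Pool.Agent.Work.MP_6d7bb4_psv.Interface
import Pool.Agent.Work.MP_6d7bb4_helper94.Conj

/-! # MP_6d7bb4 psv, block DST (helper36) -/

set_option autoImplicit false

namespace Pool.Agent.Work.MP_6d7bb4_psv

open Pool.Agent.Work.MP_6d7bb4.helper94

theorem p_DST : Stmt_DST := by
  intro I V Γ hT o y hoy m b t e v α s hTab
  have hc := hT.connected
  have hstep : ∀ (i : I) (z : V), Γ.dist o (α i (s z)) = Γ.dist y z := by
    intro i z
    have h1 := Tr.dist_iso (α i) hc o (s z)
    rw [hTab.fix] at h1
    rw [h1]
    have h2 := Tr.dist_iso s hc y z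
    rw [hTab.sy] at h2
    exact h2
  have hstep' : ∀ (i : I) (z : V), Γ.dist (α i y) (α i (s z)) = Γ.dist o z := by
    intro i z
    rw [Tr.dist_iso (α i) hc y (s z)]
    have h2 := Tr.dist_iso s hc o z
    rw [hTab.so] at h2
    exact h2
  have hEc : ∀ (i : I) (u : List I), E α s (i :: u) o = α i (s (E α s u o)) := fun _ _ => rfl
  have htri : ∀ z : V, Γ.dist y z ≤ Γ.dist o z + 1 := by
    intro z
    have h6 := hc.dist_triangle (u := y) (v := o) (w := z)
    rw [SimpleGraph.dist_eq_one_iff_adj.mpr hoy.symm] at h6
    omega
  have hle : ∀ w : List I, Γ.dist o (E α s w o) ≤ w.length := by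
    intro w
    induction w with
    | nil =>
      show Γ.dist o o ≤ 0
      rw [SimpleGraph.dist_self]
    | cons i w ih =>
      rw [hEc, hstep, List.length_cons]
      have := htri (E α s w o)
      omega
  intro w
  induction w with
  | nil =>
    intro _
    show Γ.dist o o = 0
    rw [SimpleGraph.dist_self]
  | cons i w ih =>
    intro hw
    rw [hEc, hstep, List.length_cons]
    cases w with
    | nil =>
      show Γ.dist y o = 0 + 1
      rw [SimpleGraph.dist_eq_one_iff_adj.mpr hoy.symm]
    | cons x u =>
      have hbx : ¬ b x := hw x (by simp)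
      have hr : Redu b (x :: u) := fun z hz => hw z (List.mem_cons_of_mem x hz)
      have ih' := ih hr
      have h3 : Γ.dist y (E α s u o) = u.length + 1 := by
        rw [← hstep x, ← hEc]
        exact ih'
      have h4 := hle u
      have h5 := htri (E α s u o)
      have h6 : Γ.dist (α x y) (E α s (x :: u) o) + 1 = Γ.dist o (E α s (x :: u) o) := by
        rw [ih', hEc, hstep', List.length_cons]
        omega
      have hax : Γ.Adj o (α x y) := by
        have := Tr.adj_iso (α x) hoy
        rwa [hTab.fix] at this
      rcases hT.dist_eq_dist_add_one_of_adj (E α s (x :: u) o) hoy with h1 | h1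
      · exfalso
        apply hbx
        rw [hTab.bb]
        rw [SimpleGraph.dist_comm, SimpleGraph.dist_comm (v := y)] at h1
        exact (Tr.closer_unique hT hoy hax h1.symm h6).symm
      · rw [SimpleGraph.dist_comm, SimpleGraph.dist_comm (v := o)] at h1
        rw [h1, ih']

end Pool.Agent.Work.MP_6d7bb4_psv
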