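import Pool.Agent.Work.MP_6d7bb4_psv.Interface

/-! Block LEFT: left multiplication by a generator. -/

set_option autoImplicit false

namespace Pool.Agent.Work.MP_6d7bb4_psv

/-- left multiplication on lists -/
noncomputable def LEFT_l {D : Type} (i : D) : List D → W D
  | [] => rm i (root D)
  | j :: u => rm j (LEFT_l i u)

/-- left multiplication on words -/
noncomputable def LEFT_L {D : Type} (i : D) (w : W D) : W D := LEFT_l i w.1

theorem LEFT_root {D : Type} (i : D) : LEFT_L i (root D) = rm i (root D) := rfl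

theorem LEFT_rm {D : Type} (i j : D) (w : W D) : LEFT_L i (rm j w) = rm j (LEFT_L i w) := by
  obtain ⟨u, h⟩ := w
  cases u with
  | nil => rfl
  | cons k u =>
    by_cases hkj : k = j
    · subst hkj
      rw [rm_same]
      show LEFT_l i u = rm k (rm k (LEFT_l i u))
      rw [rm_rm]
    · rw [rm_ne hkj]
      rfl

theorem LEFT_LL {D : Type} (i : D) (w : W D) : LEFT_L i (LEFT_L i w) = w := by
  refine W_ind (P := fun w => LEFT_L i (LEFT_L i w) = w) ?_ ?_ w
  · rw [LEFT_root, LEFT_rm, LEFT_root, rm_rm]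
  · intro j w hw
    rw [LEFT_rm, LEFT_rm, hw]

theorem LEFT_q {D X : Type} (C : CovDat D X) (i : D) (w : W D) :
    C.q (LEFT_L i w) = C.T i * C.q w := by
  refine W_ind (P := fun w => C.q (LEFT_L i w) = C.T i * C.q w) ?_ ?_ w
  · rw [LEFT_root, C.q_rm, C.q_root, one_mul, mul_one]
  · intro j w hw
    rw [LEFT_rm, C.q_rm, hw, C.q_rm, mul_assoc]

theorem LEFT_adj {D : Type} (i : D) {v w : W D} (h : (WG D).Adj v w) :
    (WG D).Adj (LEFT_L i v) (LEFT_L i w) := by
  obtain ⟨j, rfl⟩ := h
  exact ⟨j, LEFT_rm i j v⟩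

/-- the automorphism -/
noncomputable def LEFT_iso {D : Type} (i : D) : WG D ≃g WG D where
  toFun := LEFT_L i
  invFun := LEFT_L i
  left_inv := LEFT_LL i
  right_inv := LEFT_LL i
  map_rel_iff' := by
    intro v w
    constructor
    · intro h
      have h2 := LEFT_adj i h
      simp only [Equiv.coe_fn_mk] at h2
      rwa [LEFT_LL, LEFT_LL] at h2
    · intro h
      exact LEFT_adj i h

theorem p_LEFT : Stmt_LEFT := by
  intro D X C i
  refine ⟨LEFT_iso i, LEFT_root i, fun w j => LEFT_rm i j w, ?_, fun w => ?_⟩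
  · ext w : 1
    exact LEFT_LL i w
  · show C.q (LEFT_L i w) C.x0 = _
    rw [LEFT_q]
    rfl

end Pool.Agent.Work.MP_6d7bb4_psv
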