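import Pool.Agent.Work.MP_6d7bb4_psv.Interface

/-! # MP_6d7bb4 psv, block LFP (helper56) -/

set_option autoImplicit false

namespace Pool.Agent.Work.MP_6d7bb4_psv

theorem LFP_inv_app {V : Type} {Γ : SimpleGraph V} (g : Γ ≃g Γ) (x : V) : g⁻¹ (g x) = x :=
  RelIso.inv_apply_self g x

theorem LFP_app_inv {V : Type} {Γ : SimpleGraph V} (g : Γ ≃g Γ) (x : V) : g (g⁻¹ x) = x :=
  RelIso.apply_inv_self g x

theorem LFP_mul {V : Type} {Γ : SimpleGraph V} (g h : Γ ≃g Γ) (x : V) : (g * h) x = g (h x) := rfl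

/-- translations commuting with all right multiplications -/
theorem LFP_tr (hL : Stmt_LEFT) {D X : Type} (C : CovDat D X) (v : W D) :
    ∃ M ∈ C.Lf, M (root D) = v ∧ ∀ w j, M (rm j w) = rm j (M w) := by
  refine W_ind (P := fun v => ∃ M ∈ C.Lf, M (root D) = v ∧ ∀ w j, M (rm j w) = rm j (M w)) ?_ ?_ v
  · exact ⟨1, C.Lf.one_mem, rfl, fun _ _ => rfl⟩
  · rintro j w ⟨M, hM, h1, h2⟩
    obtain ⟨L, h3, h4, -, h5⟩ := hL D X C j
    refine ⟨M * L, C.Lf.mul_mem hM ⟨C.T j, C.T_mem j, h5⟩, ?_, ?_⟩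
    · rw [LFP_mul, h3, h2, h1]
    · intro w' j'
      rw [LFP_mul, LFP_mul, h4, h2]

theorem LFP_p1 {D X : Type} (C : CovDat D X) (j : D) : C.p (rm j (root D)) = C.n j := by
  rw [C.p_rm, C.q_root]
  rfl

theorem p_LFP (_hT : Stmt_TREE) (hL : Stmt_LEFT) (hA : Stmt_ACT) (hU : Stmt_UNI) : Stmt_LFP := by
  intro D X C hD hfin F' hF'
  have hvt : VTrans C.Lf := by
    intro x y
    obtain ⟨M, hM, h1, -⟩ := LFP_tr hL C x
    obtain ⟨M', hM', h2, -⟩ := LFP_tr hL C y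
    refine ⟨M' * M⁻¹, C.Lf.mul_mem hM' (C.Lf.inv_mem hM), ?_⟩
    rw [LFP_mul, ← h1, LFP_inv_app, h2]
  refine ⟨?_, ?_, ?_, hvt⟩
  · -- FinStab
    intro v
    have h0 : {h : WG D ≃g WG D | h ∈ C.Lf ∧ h (root D) = root D}.Finite := by
      classical
      let f : (WG D ≃g WG D) → Equiv.Perm X := fun h =>
        if hh : ∃ g ∈ C.U, ∀ w, C.p (h w) = g (C.p w) then hh.choose else 1
      have hf : ∀ h ∈ C.Lf, f h ∈ C.U ∧ ∀ w, C.p (h w) = f h (C.p w) := by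
        intro h hh
        have hh' : ∃ g ∈ C.U, ∀ w, C.p (h w) = g (C.p w) := hh
        have h1 : f h = hh'.choose := dif_pos hh'
        rw [h1]
        exact hh'.choose_spec
      refine Set.Finite.of_injOn (f := f) (t := {g | g ∈ C.U ∧ g C.x0 = C.x0}) ?_ ?_ hfin
      · rintro h ⟨h1, h2⟩
        obtain ⟨h3, h4⟩ := hf h h1
        refine ⟨h3, ?_⟩
        have h5 := h4 (root D)
        rw [h2, C.p_root] at h5
        exact h5.symm
      · rintro h ⟨h1, h2⟩ k ⟨h3, h4⟩ h5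
        refine hU D X C h k (fun w => ?_) (root D) (h2.trans h4.symm)
        rw [(hf h h1).2, (hf k h3).2, h5]
    obtain ⟨M, hM, h1, -⟩ := LFP_tr hL C v
    refine (h0.image (fun k => M * k * M⁻¹)).subset ?_
    rintro h ⟨h2, h3⟩
    refine ⟨M⁻¹ * h * M, ⟨C.Lf.mul_mem (C.Lf.mul_mem (C.Lf.inv_mem hM) h2) hM, ?_⟩, ?_⟩
    · rw [LFP_mul, LFP_mul, h1, h3, ← h1, LFP_inv_app]
    · show M * (M⁻¹ * h * M) * M⁻¹ = h
      group
  · -- LocAct
    intro v
    obtain ⟨M, hM, hM1, hM2⟩ := LFP_tr hL C v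
    have hb : Function.Bijective (fun j : D => (⟨rm j v, ⟨j, rfl⟩⟩ : (WG D).neighborSet v)) := by
      constructor
      · intro i j hij
        exact rm_inj (congrArg Subtype.val hij)
      · rintro ⟨w, j, rfl⟩
        exact ⟨j, rfl⟩
    obtain ⟨e, he⟩ : ∃ e : D ≃ (WG D).neighborSet v, ∀ j, (e j).1 = rm j v :=
      ⟨Equiv.ofBijective _ hb, fun _ => rfl⟩
    have hMj : ∀ j, M (rm j (root D)) = rm j v := fun j => by rw [hM2, hM1]
    refine ⟨e.symm, fun σ => ?_⟩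
    rw [hF' σ]
    constructor
    · rintro ⟨g, hg, h1, h2⟩
      obtain ⟨h, h3, h4⟩ := hA D X C g hg h1
      have h5 : ∀ j, h (rm j (root D)) = rm (σ j) (root D) := by
        intro j
        have h6 : (WG D).Adj (root D) (h (rm j (root D))) := by
          have h7 : (WG D).Adj (h (root D)) (h (rm j (root D))) :=
            h.map_rel_iff.mpr (⟨j, rfl⟩ : (WG D).Adj (root D) (rm j (root D)))
          rwa [h3] at h7
        obtain ⟨k, hk⟩ := h6
        have h8 := h4 (rm j (root D))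
        rw [hk, LFP_p1, LFP_p1, h2] at h8
        rw [hk, C.n_inj h8]
      refine ⟨M * h * M⁻¹, C.Lf.mul_mem (C.Lf.mul_mem hM ⟨g, hg, h4⟩) (C.Lf.inv_mem hM), ?_, ?_⟩
      · rw [LFP_mul, LFP_mul, ← hM1, LFP_inv_app, h3]
      · intro y
        obtain ⟨j, rfl⟩ := e.surjective y
        rw [Equiv.symm_symm, Equiv.symm_apply_apply, he, he, LFP_mul, LFP_mul, ← hMj j, LFP_inv_app,
          h5, hMj]
    · rintro ⟨h, hh, h1, h2⟩
      have hk : M⁻¹ * h * M ∈ C.Lf := C.Lf.mul_mem (C.Lf.mul_mem (C.Lf.inv_mem hM) hh) hM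
      obtain ⟨g, hg, h3⟩ := hk
      refine ⟨g, hg, ?_, ?_⟩
      · have h4 := h3 (root D)
        rw [C.p_root, LFP_mul, LFP_mul, hM1, h1, ← hM1, LFP_inv_app, C.p_root] at h4
        exact h4.symm
      · intro j
        have h4 := h3 (rm j (root D))
        have h5 := h2 (e j)
        rw [Equiv.symm_symm, Equiv.symm_apply_apply, he, he] at h5
        rw [LFP_p1, LFP_mul, LFP_mul, hMj, h5, ← hMj, LFP_inv_app, LFP_p1] at h4
        exact h4.symm
  · -- InvInv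
    obtain ⟨i⟩ := hD
    obtain ⟨L, h1, h2, h3, h4⟩ := hL D X C i
    refine ⟨L, ⟨C.T i, C.T_mem i, h4⟩, root D, rm i (root D), ⟨i, rfl⟩, h1, ?_, h3⟩
    rw [h2, h1, rm_rm]

end Pool.Agent.Work.MP_6d7bb4_psv
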