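import Pool.Agent.Work.MP_6d7bb4_psv.Interface

/-! # MP_6d7bb4 psv, block MAIN (helper56) -/

set_option autoImplicit false

namespace Pool.Agent.Work.MP_6d7bb4_psv

theorem MAIN_mono {V : Type} {Γ : SimpleGraph V} {P Q : Subgroup (Γ ≃g Γ) → Prop}
    (h : FinCls Q) (hPQ : ∀ H, P H → Q H) : FinCls P := by
  obtain ⟨S, hS⟩ := h
  exact ⟨S, fun H hH => hS H (hPQ H hH)⟩

theorem MAIN_reg (hF : Stmt_FIN) (hA : Stmt_ARC) (hR : Stmt_REG) {Ω : Type} [Fintype Ω]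
    {F : Subgroup (Equiv.Perm Ω)} (h1 : Transitive F) (h2 : Semiregular F) : PSV F := by
  intro V Γ hΓ
  obtain ⟨o⟩ := hΓ.1.connected.nonempty
  refine MAIN_mono (hF V Γ hΓ.1 o (Nat.card Ω + 1)) ?_
  rintro H ⟨h3, h4, h5⟩
  exact ⟨h3, (hA Ω V F Γ H hΓ.1.connected h1 h4 (Or.inl h5)).1,
    hR Ω V F Γ H o hΓ.1.connected h2 h4⟩

theorem MAIN_one (hB : Stmt_BND) (hF : Stmt_FIN) (hA : Stmt_ARC) (hR : Stmt_REG) {Ω : Type}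
    [Fintype Ω] {F : Subgroup (Equiv.Perm Ω)} (h1 : Transitive F) (h2 : Q1 (prodAct F)) :
    PSV F := by
  by_cases hΩ : Nonempty Ω
  · intro V Γ hΓ
    obtain ⟨o⟩ := hΓ.1.connected.nonempty
    obtain ⟨M, hM⟩ := hB Ω hΩ F h2 V Γ hΓ o
    refine MAIN_mono (hF V Γ hΓ.1 o M) ?_
    rintro H ⟨h3, h4, h5⟩
    have h6 := (hA Ω V F Γ H hΓ.1.connected h1 h4 (Or.inl h5)).1
    exact ⟨h3, h6, hM H h3 h4 h6⟩
  · exact MAIN_reg hF hA hR h1 (fun σ _ a _ => absurd ⟨a⟩ hΩ)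

theorem MAIN_back (hA : Stmt_ARC) {Ω : Type} {F : Subgroup (Equiv.Perm Ω)}
    (h1 : Transitive F) (h2 : PSV F) : Q1 F := by
  intro V Γ hΓ
  refine MAIN_mono (h2 V Γ hΓ) ?_
  rintro H ⟨h3, h4, h5⟩
  exact ⟨h3, h4, (hA Ω V F Γ H hΓ.1.connected h1 h4 (Or.inr h5)).2⟩

theorem p_MAIN (hB : Stmt_BND) (hF : Stmt_FIN) (hA : Stmt_ARC) (hR : Stmt_REG) (hS : Stmt_SEMI)
    (hP : Stmt_PRIM) : Stmt_MAIN := by
  refine ⟨?_, ?_, ?_, ⟨?_, ?_⟩, ⟨?_, ?_⟩⟩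
  · intro Ω _ F h1 h2
    exact MAIN_one hB hF hA hR h1 h2
  · intro Ω _ F h1 h2
    exact hS Ω F h1 h2
  · intro Ω _ F h1 h2
    exact hP Ω F h1 h2
  · intro h Ω _ F h1
    by_cases h2 : Semiregular F
    · exact MAIN_reg hF hA hR h1.1 h2
    · exact MAIN_one hB hF hA hR h1.1 (h (Ω × Ω) (prodAct F) (hS Ω F h1 h2))
  · intro h Ω _ F h1
    exact MAIN_back hA h1.1 (h Ω F h1)
  · intro h Ω _ F h1
    by_cases h2 : Semiregular F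
    · exact MAIN_reg hF hA hR h1.1 h2
    · exact MAIN_one hB hF hA hR h1.1 (h (Ω × Ω) (prodAct F) (hP Ω F h1 h2))
  · intro h Ω _ F h1
    exact MAIN_back hA h1.1 (h Ω F h1)

end Pool.Agent.Work.MP_6d7bb4_psv
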