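import Pool.Agent.Work.MP_6d7bb4_psv.Interface

/-!
# MP_6d7bb4, block NF: the simultaneous normal form
-/

set_option autoImplicit false

namespace Pool.Agent.Work.MP_6d7bb4_psv

section NF

variable {I V : Type} {Γ : SimpleGraph V} {o y : V} {m : I → I → I} {b : I → Prop} {t : I → I}
  {e : I} {v : I → I} {α α' : I → (Γ ≃g Γ)} {s s' : Γ ≃g Γ}

/-- the pairs in reduced form -/
def NF_R (b : I → Prop) (α α' : I → (Γ ≃g Γ)) (s s' : Γ ≃g Γ) (x : (Γ ≃g Γ) × (Γ ≃g Γ)) : Prop :=
  ∃ w j, Redu b w ∧ x = (E α s w * α j, E α' s' w * α' j)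

theorem NF_one (h : Tab Γ o y m b t e v α s) (h' : Tab Γ o y m b t e v α' s') :
    NF_R b α α' s s' 1 := by
  refine ⟨[], e, fun x hx => by simp at hx, ?_⟩
  rw [h.one, h'.one]
  simp only [E, one_mul]
  rfl

theorem NF_left (h : Tab Γ o y m b t e v α s) (h' : Tab Γ o y m b t e v α' s') (i : I)
    {x : (Γ ≃g Γ) × (Γ ≃g Γ)} (hx : NF_R b α α' s s' x) : NF_R b α α' s s' ((α i, α' i) * x) := by
  obtain ⟨w, j, hw, rfl⟩ := hx
  cases w with
  | nil =>
    refine ⟨[], m i j, hw, ?_⟩
    simp only [E, one_mul, Prod.mk_mul_mk, h.mul, h'.mul]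
  | cons z u =>
    refine ⟨m i z :: u, j, hw, ?_⟩
    simp only [E, Prod.mk_mul_mk, ← h.mul, ← h'.mul, mul_assoc]

theorem NF_s (h : Tab Γ o y m b t e v α s) (h' : Tab Γ o y m b t e v α' s')
    {x : (Γ ≃g Γ) × (Γ ≃g Γ)} (hx : NF_R b α α' s s' x) : NF_R b α α' s s' ((s, s') * x) := by
  obtain ⟨w, j, hw, rfl⟩ := hx
  cases w with
  | nil =>
    refine ⟨[e], j, fun x hx => by simp at hx, ?_⟩
    simp only [E, one_mul, Prod.mk_mul_mk, h.one, h'.one, mul_one]
  | cons z u =>
    by_cases hz : b z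
    · have h1 := h.tt z hz
      have h2 := h'.tt z hz
      have h3 : NF_R b α α' s s' (E α s u * α j, E α' s' u * α' j) :=
        ⟨u, j, fun x hx => hw x (List.mem_of_mem_tail hx), rfl⟩
      have h4 := NF_left h h' (t z) h3
      convert h4 using 1
      simp only [E, Prod.mk_mul_mk, ← h1, ← h2, mul_assoc]
    · refine ⟨e :: z :: u, j, ?_, ?_⟩
      · intro x hx
        rcases List.mem_cons.1 hx with rfl | hx
        · exact hz
        · exact hw x hx
      · simp only [E, one_mul, Prod.mk_mul_mk, h.one, h'.one, mul_assoc]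

theorem NF_be (h : Tab Γ o y m b t e v α s) : b e := by
  rw [h.bb, h.one]
  rfl

theorem NF_sinv (h : Tab Γ o y m b t e v α s) : s⁻¹ = α (v (t e)) * s := by
  have h1 := h.tt e (NF_be h)
  rw [h.one, mul_one] at h1
  rw [← h.inv, ← h1]
  group

end NF

theorem p_NF : Stmt_NF := by
  intro I V Γ o y m b t e v α α' s s' h h' x hx
  have key : NF_R b α α' s s' x := by
    unfold Rel at hx
    induction hx using Subgroup.closure_induction_left with
    | one => exact NF_one h h'
    | mul_left x hx z hz ih =>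
      rcases hx with ⟨i, rfl⟩ | hx
      · exact NF_left h h' i ih
      · rw [Set.mem_singleton_iff] at hx
        subst hx
        exact NF_s h h' ih
    | inv_mul_cancel x hx z hz ih =>
      rcases hx with ⟨i, rfl⟩ | hx
      · have h1 := NF_left h h' (v i) ih
        convert h1 using 2
        rw [Prod.inv_mk, h.inv, h'.inv]
      · rw [Set.mem_singleton_iff] at hx
        subst hx
        have h1 := NF_left h h' (v (t e)) (NF_s h h' ih)
        have h2 : ((s, s')⁻¹ : (Γ ≃g Γ) × (Γ ≃g Γ)) = (α (v (t e)), α' (v (t e))) * (s, s') := by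
          rw [Prod.mk_mul_mk, ← NF_sinv h, ← NF_sinv h', Prod.inv_mk]
        rw [h2, mul_assoc]
        exact h1
  exact key

end Pool.Agent.Work.MP_6d7bb4_psv
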