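import Pool.Agent.Work.MP_6d7bb4_psv.Interface

/-!
# Block PRIM (MP_6d7bb4_psv): the product action of a primitive group is primitive

Written by helper55.
-/

set_option autoImplicit false

namespace Pool.Agent.Work.MP_6d7bb4_psv

theorem PRIM_mem1 {Ω : Type} {F : Subgroup (Equiv.Perm Ω)} {f g : Equiv.Perm Ω} (hf : f ∈ F)
    (hg : g ∈ F) : (Equiv.prodCongr f g : Equiv.Perm (Ω × Ω)) ∈ prodAct F :=
  ⟨f, hf, g, hg, Or.inl fun _ _ => rfl⟩

theorem PRIM_mem2 {Ω : Type} (F : Subgroup (Equiv.Perm Ω)) :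
    (Equiv.prodComm Ω Ω : Equiv.Perm (Ω × Ω)) ∈ prodAct F :=
  ⟨1, F.one_mem, 1, F.one_mem, Or.inr fun _ _ => rfl⟩

theorem PRIM_sep {Ω : Type} {F : Subgroup (Equiv.Perm Ω)} (hF : Prim F) (hs : ¬ Semiregular F)
    {a c : Ω} (hac : a ≠ c) :
    (∃ f ∈ F, f a = a ∧ f c ≠ c) ∨ ∃ f ∈ F, f c = c ∧ f a ≠ a := by
  let r : Setoid Ω :=
    { r := fun x y => ∀ f ∈ F, f x = x ↔ f y = y
      iseqv := ⟨fun _ _ _ => Iff.rfl, fun h f hf => (h f hf).symm,
        fun h1 h2 f hf => (h1 f hf).trans (h2 f hf)⟩ }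
  have hr : ∀ x y, r x y ↔ ∀ f ∈ F, f x = x ↔ f y = y := fun _ _ => Iff.rfl
  have hinv : ∀ f ∈ F, ∀ a b : Ω, r a b → r (f a) (f b) := by
    intro g hg x y hxy
    rw [hr] at hxy ⊢
    intro f hf
    have h1 := hxy (g⁻¹ * f * g) (F.mul_mem (F.mul_mem (F.inv_mem hg) hf) hg)
    have h2 : ∀ z, (g⁻¹ * f * g) z = z ↔ f (g z) = g z := by
      intro z
      rw [Equiv.Perm.mul_apply, Equiv.Perm.mul_apply, Equiv.Perm.inv_eq_iff_eq]
    rwa [h2, h2] at h1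
  rcases hF.2 r hinv with h | h
  · have h1 : ¬ r a c := fun hh => hac (h a c hh)
    rw [hr] at h1
    push Not at h1
    obtain ⟨f, hf, h2⟩ := h1
    rcases h2 with ⟨h3, h4⟩ | ⟨h3, h4⟩
    · exact Or.inl ⟨f, hf, h3, h4⟩
    · exact Or.inr ⟨f, hf, h4, h3⟩
  · exfalso
    apply hs
    intro σ hσ x hx
    ext y
    exact ((hr x y).1 (h x y) σ hσ).1 hx

theorem p_PRIM : Stmt_PRIM := by
  intro Ω F hF hs
  refine ⟨?_, ?_⟩
  · rintro ⟨a, b⟩ ⟨c, d⟩
    obtain ⟨f, hf, hfa⟩ := hF.1 a c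
    obtain ⟨g, hg, hgb⟩ := hF.1 b d
    exact ⟨_, PRIM_mem1 hf hg, Prod.ext hfa hgb⟩
  · intro r hr
    by_cases hne : ∀ a b : Ω × Ω, r a b → a = b
    · exact Or.inl hne
    right
    push Not at hne
    -- a pair with different first coordinates
    obtain ⟨a, b, c, d, hac, hab⟩ : ∃ a b c d : Ω, a ≠ c ∧ r (a, b) (c, d) := by
      obtain ⟨⟨a, b⟩, ⟨c, d⟩, h1, h2⟩ := hne
      by_cases hac : a = c
      · refine ⟨b, a, d, c, fun h => h2 (Prod.ext hac h), ?_⟩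
        exact hr _ (PRIM_mem2 F) _ _ h1
      · exact ⟨a, b, c, d, hac, h1⟩
    -- a pair with the same second coordinate
    obtain ⟨x, y, z, hxy, hxyz⟩ : ∃ x y z : Ω, x ≠ y ∧ r (x, z) (y, z) := by
      rcases PRIM_sep hF hs hac with ⟨f, hf, h1, h2⟩ | ⟨f, hf, h1, h2⟩
      · refine ⟨c, f c, d, fun h => h2 h.symm, ?_⟩
        have h3 : r (f a, b) (f c, d) := hr _ (PRIM_mem1 hf F.one_mem) _ _ hab
        rw [h1] at h3
        exact r.trans' (r.symm' hab) h3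
      · refine ⟨a, f a, b, fun h => h2 h.symm, ?_⟩
        have h3 : r (f a, b) (f c, d) := hr _ (PRIM_mem1 hf F.one_mem) _ _ hab
        rw [h1] at h3
        exact r.trans' hab (r.symm' h3)
    let r1 : Setoid Ω :=
      { r := fun u v => r (u, z) (v, z)
        iseqv := ⟨fun _ => r.refl' _, fun h => r.symm' h, fun h1 h2 => r.trans' h1 h2⟩ }
    have hr1 : ∀ u v, r1 u v ↔ r (u, z) (v, z) := fun _ _ => Iff.rfl
    have h1 : ∀ u v, r (u, z) (v, z) := by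
      rcases hF.2 r1 (fun f hf u v h => by
        rw [hr1] at h ⊢
        exact hr _ (PRIM_mem1 hf F.one_mem) _ _ h) with h | h
      · exact absurd (h x y ((hr1 x y).2 hxyz)) hxy
      · exact fun u v => (hr1 u v).1 (h u v)
    have h2 : ∀ u v w, r (u, w) (v, w) := by
      intro u v w
      obtain ⟨g, hg, hgz⟩ := hF.1 z w
      have h3 : r (u, g z) (v, g z) := hr _ (PRIM_mem1 F.one_mem hg) _ _ (h1 u v)
      rwa [hgz] at h3
    have h3 : ∀ u v w, r (w, u) (w, v) := fun u v w => hr _ (PRIM_mem2 F) _ _ (h2 u v w)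
    rintro ⟨u, v⟩ ⟨u', v'⟩
    exact r.trans' (h2 u u' v) (h3 v v' u')

end Pool.Agent.Work.MP_6d7bb4_psv
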