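import Pool.Agent.Work.MP_6d7bb4_psv.Interface

/-!
# REG: the regular case
-/

set_option autoImplicit false

namespace Pool.Agent.Work.MP_6d7bb4_psv

/-- an element which fixes a vertex and a neighbour fixes all neighbours -/
theorem REG_nb {Ω V : Type} {F : Subgroup (Equiv.Perm Ω)} {Γ : SimpleGraph V}
    {H : Subgroup (Γ ≃g Γ)} (hF : Semiregular F) (hL : LocAct H F) (h : Γ ≃g Γ) (hh : h ∈ H)
    (x y z : V) (hx : h x = x) (hy : h y = y) (hxy : Γ.Adj x y) (hxz : Γ.Adj x z) : h z = z := by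
  obtain ⟨e, he⟩ := hL x
  have hadj : ∀ v : Γ.neighborSet x, Γ.Adj x (h (v : V)) := by
    intro v
    have h1 : Γ.Adj (h x) (h (v : V)) := h.map_adj_iff.2 v.2
    rwa [hx] at h1
  have hadj' : ∀ v : Γ.neighborSet x, Γ.Adj x (h.symm (v : V)) := by
    intro v
    rw [← h.map_adj_iff, RelIso.apply_symm_apply, hx]
    exact v.2
  let τ : Equiv.Perm (Γ.neighborSet x) :=
    { toFun := fun v => ⟨h (v : V), hadj v⟩
      invFun := fun v => ⟨h.symm (v : V), hadj' v⟩
      left_inv := fun v => Subtype.ext (RelIso.symm_apply_apply h _)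
      right_inv := fun v => Subtype.ext (RelIso.apply_symm_apply h _) }
  have hσ : (e.symm.trans (τ.trans e) : Equiv.Perm Ω) ∈ F := by
    refine (he _).2 ⟨h, hh, hx, fun v => ?_⟩
    show h (v : V) = ((e.symm (e (τ (e.symm (e v)))) : Γ.neighborSet x) : V)
    rw [Equiv.symm_apply_apply, Equiv.symm_apply_apply]
    rfl
  have hfix : (e.symm.trans (τ.trans e) : Equiv.Perm Ω) (e ⟨y, hxy⟩) = e ⟨y, hxy⟩ := by
    show e (τ (e.symm (e ⟨y, hxy⟩))) = _
    rw [Equiv.symm_apply_apply]
    congr 1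
    exact Subtype.ext hy
  have h1 := hF _ hσ _ hfix
  have h2 : e (τ (e.symm (e ⟨z, hxz⟩))) = e ⟨z, hxz⟩ := by
    have := congrArg (fun s : Equiv.Perm Ω => s (e ⟨z, hxz⟩)) h1
    exact this
  rw [Equiv.symm_apply_apply] at h2
  exact congrArg Subtype.val (e.injective h2)

theorem p_REG : Stmt_REG := by
  intro Ω V _ F Γ H o hΓ hF hL
  -- an element which fixes o and a neighbour is the identity
  have hone : ∀ h ∈ H, ∀ y, Γ.Adj o y → h o = o → h y = y → ∀ z : V, h z = z := by
    intro h hh y hoy ho hy z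
    have hwalk : ∀ (a b : V), Γ.Walk a b → (h a = a ∧ ∃ c, Γ.Adj a c ∧ h c = c) →
        (h b = b ∧ ∃ c, Γ.Adj b c ∧ h c = c) := by
      intro a b w
      induction w with
      | nil => exact fun h => h
      | @cons a' b' c' hadj _ ih =>
        rintro ⟨h1, c, h2, h3⟩
        exact ih ⟨REG_nb hF hL h hh a' c b' h1 h3 h2 hadj, a', hadj.symm, h1⟩
    obtain ⟨w⟩ := hΓ.preconnected o z
    exact (hwalk o z w ⟨ho, y, hoy, hy⟩).1
  by_cases hex : ∃ y0, Γ.Adj o y0
  · obtain ⟨y0, hy0⟩ := hex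
    obtain ⟨e, _⟩ := hL o
    have hadj : ∀ g : {g : Γ ≃g Γ // g ∈ H ∧ g o = o}, Γ.Adj o (g.1 y0) := by
      intro g
      have h1 : Γ.Adj (g.1 o) (g.1 y0) := g.1.map_adj_iff.2 hy0
      rwa [g.2.2] at h1
    have hinj : Function.Injective (fun g : {g : Γ ≃g Γ // g ∈ H ∧ g o = o} =>
        e ⟨g.1 y0, hadj g⟩) := by
      intro g g' hgg
      have h1 : g.1 y0 = g'.1 y0 := congrArg Subtype.val (e.injective hgg)
      have h2 := hone (g.1⁻¹ * g'.1) (H.mul_mem (H.inv_mem g.2.1) g'.2.1) y0 hy0 (by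
        show g.1.symm (g'.1 o) = o
        rw [g'.2.2]
        exact (congrArg g.1.symm g.2.2.symm).trans (RelIso.symm_apply_apply g.1 o)) (by
        show g.1.symm (g'.1 y0) = y0
        rw [← h1]
        exact RelIso.symm_apply_apply g.1 y0)
      apply Subtype.ext
      apply RelIso.ext
      intro z
      have h3 : g.1.symm (g'.1 z) = z := h2 z
      have h4 := congrArg g.1 h3
      rw [RelIso.apply_symm_apply] at h4
      exact h4.symm
    have := Nat.card_le_card_of_injective _ hinj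
    omega
  · have hV : ∀ z : V, z = o := by
      intro z
      obtain ⟨w⟩ := hΓ.preconnected o z
      cases w with
      | nil => rfl
      | cons hadj _ => exact absurd ⟨_, hadj⟩ hex
    have hsub : Subsingleton {g : Γ ≃g Γ // g ∈ H ∧ g o = o} := by
      refine ⟨fun g g' => Subtype.ext (RelIso.ext fun z => ?_)⟩
      rw [hV (g.1 z), hV (g'.1 z)]
    have : Nat.card {g : Γ ≃g Γ // g ∈ H ∧ g o = o} ≤ 1 := Finite.card_le_one_iff_subsingleton.2 hsub
    omega

end Pool.Agent.Work.MP_6d7bb4_psv
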