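import Pool.Agent.Work.MP_6d7bb4_psv.Interface

/-!
# SEMI: the product action of a semiprimitive group
-/

set_option autoImplicit false

namespace Pool.Agent.Work.MP_6d7bb4_psv

/-- componentwise action -/
def SEMI_pd {Ω : Type} (a b : Equiv.Perm Ω) : Equiv.Perm (Ω × Ω) := Equiv.prodCongr a b

/-- the swap -/
def SEMI_sw (Ω : Type) : Equiv.Perm (Ω × Ω) := Equiv.prodComm Ω Ω

theorem SEMI_mul {Ω : Type} (a b c d : Equiv.Perm Ω) :
    SEMI_pd a b * SEMI_pd c d = SEMI_pd (a * c) (b * d) := by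
  apply Equiv.ext
  rintro ⟨x, y⟩
  rfl

theorem SEMI_inv {Ω : Type} (a b : Equiv.Perm Ω) : (SEMI_pd a b)⁻¹ = SEMI_pd a⁻¹ b⁻¹ := by
  apply inv_eq_of_mul_eq_one_right
  rw [SEMI_mul]
  apply Equiv.ext
  rintro ⟨x, y⟩
  simp [SEMI_pd]

theorem SEMI_swpd {Ω : Type} (a b : Equiv.Perm Ω) :
    SEMI_sw Ω * SEMI_pd a b * (SEMI_sw Ω)⁻¹ = SEMI_pd b a := by
  apply Equiv.ext
  rintro ⟨x, y⟩
  rfl

theorem SEMI_mem {Ω : Type} {F : Subgroup (Equiv.Perm Ω)} {σ : Equiv.Perm (Ω × Ω)} :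
    σ ∈ prodAct F ↔ ∃ a ∈ F, ∃ b ∈ F, σ = SEMI_pd a b ∨ σ = SEMI_pd a b * SEMI_sw Ω := by
  rw [mem_prodAct]
  constructor
  · rintro ⟨a, ha, b, hb, h | h⟩
    · exact ⟨a, ha, b, hb, Or.inl (Equiv.ext fun ⟨x, y⟩ => h x y)⟩
    · exact ⟨a, ha, b, hb, Or.inr (Equiv.ext fun ⟨x, y⟩ => h x y)⟩
  · rintro ⟨a, ha, b, hb, h | h⟩
    · exact ⟨a, ha, b, hb, Or.inl fun x y => by rw [h]; rfl⟩
    · exact ⟨a, ha, b, hb, Or.inr fun x y => by rw [h]; rfl⟩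

theorem SEMI_pd_mem {Ω : Type} {F : Subgroup (Equiv.Perm Ω)} {a b : Equiv.Perm Ω} (ha : a ∈ F)
    (hb : b ∈ F) : SEMI_pd a b ∈ prodAct F := SEMI_mem.2 ⟨a, ha, b, hb, Or.inl rfl⟩

theorem SEMI_sw_mem {Ω : Type} {F : Subgroup (Equiv.Perm Ω)} : SEMI_sw Ω ∈ prodAct F := by
  refine SEMI_mem.2 ⟨1, F.one_mem, 1, F.one_mem, Or.inr ?_⟩
  apply Equiv.ext
  rintro ⟨x, y⟩
  rfl

theorem p_SEMI (hSP1 : Stmt_SP1) : Stmt_SEMI := by
  intro Ω F hF hns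
  refine ⟨?_, ?_⟩
  · rintro ⟨a, b⟩ ⟨c, d⟩
    obtain ⟨f, hf, e⟩ := hF.1 a c
    obtain ⟨g, hg, e'⟩ := hF.1 b d
    refine ⟨SEMI_pd f g, SEMI_pd_mem hf hg, ?_⟩
    show (f a, g b) = (c, d)
    rw [e, e']
  · intro N hN hNn
    by_contra hcon
    rw [not_or] at hcon
    obtain ⟨hNt, hNs⟩ := hcon
    -- the group K
    let K : Subgroup (Equiv.Perm Ω) :=
      { carrier := {k | k ∈ F ∧ SEMI_pd k 1 ∈ N}
        mul_mem' := by
          rintro f g ⟨hf, hf'⟩ ⟨hg, hg'⟩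
          refine ⟨F.mul_mem hf hg, ?_⟩
          have := N.mul_mem hf' hg'
          rw [SEMI_mul, mul_one] at this
          exact this
        one_mem' := by
          refine ⟨F.one_mem, ?_⟩
          have : SEMI_pd (1 : Equiv.Perm Ω) 1 = 1 := by
            apply Equiv.ext
            rintro ⟨x, y⟩
            rfl
          rw [this]
          exact N.one_mem
        inv_mem' := by
          rintro f ⟨hf, hf'⟩
          refine ⟨F.inv_mem hf, ?_⟩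
          have := N.inv_mem hf'
          rw [SEMI_inv, inv_one] at this
          exact this }
    have hKF : K ≤ F := fun k hk => hk.1
    have hKn : ∀ f ∈ F, ∀ k ∈ K, f * k * f⁻¹ ∈ K := by
      rintro f hf k ⟨hk, hk'⟩
      refine ⟨F.mul_mem (F.mul_mem hf hk) (F.inv_mem hf), ?_⟩
      have := hNn (SEMI_pd f 1) (SEMI_pd_mem hf F.one_mem) _ hk'
      rw [SEMI_mul, SEMI_inv, SEMI_mul, mul_one, one_mul, inv_one] at this
      exact this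
    have hKt : ¬ Transitive K := by
      intro h
      apply hNt
      rintro ⟨a, b⟩ ⟨c, d⟩
      obtain ⟨k, hk, e⟩ := h a c
      obtain ⟨k', hk', e'⟩ := h b d
      refine ⟨SEMI_pd k 1 * SEMI_pd 1 k', N.mul_mem hk.2 ?_, ?_⟩
      · have := hNn _ SEMI_sw_mem _ hk'.2
        rw [SEMI_swpd] at this
        exact this
      · show (k a, k' b) = (c, d)
        rw [e, e']
    -- commutators with (g, 1)
    have hcomm : ∀ a ∈ F, ∀ b ∈ F, SEMI_pd a b ∈ N → ∀ g ∈ F, a * g * a⁻¹ * g⁻¹ ∈ K := by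
      intro a ha b hb hab g hg
      refine ⟨F.mul_mem (F.mul_mem (F.mul_mem ha hg) (F.inv_mem ha)) (F.inv_mem hg), ?_⟩
      have h1 := hNn (SEMI_pd g 1) (SEMI_pd_mem hg F.one_mem) _ (N.inv_mem hab)
      have h2 := N.mul_mem hab h1
      rw [SEMI_inv, SEMI_inv, SEMI_mul, SEMI_mul, SEMI_mul] at h2
      have e1 : a * (g * a⁻¹ * g⁻¹) = a * g * a⁻¹ * g⁻¹ := by group
      have e2 : b * (1 * b⁻¹ * (1 : Equiv.Perm Ω)⁻¹) = 1 := by group
      rw [e1, e2] at h2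
      exact h2
    -- the group N1
    let N1 : Subgroup (Equiv.Perm Ω) :=
      { carrier := {n | n ∈ F ∧ ∀ f ∈ F, n * f * n⁻¹ * f⁻¹ ∈ K}
        mul_mem' := by
          rintro n m ⟨hn, hn'⟩ ⟨hm, hm'⟩
          refine ⟨F.mul_mem hn hm, fun f hf => ?_⟩
          have h1 := hKn n hn _ (hm' f hf)
          have h2 := K.mul_mem h1 (hn' f hf)
          have e : n * (m * f * m⁻¹ * f⁻¹) * n⁻¹ * (n * f * n⁻¹ * f⁻¹) =
              n * m * f * (n * m)⁻¹ * f⁻¹ := by group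
          rw [e] at h2
          exact h2
        one_mem' := by
          refine ⟨F.one_mem, fun f _ => ?_⟩
          have e : (1 : Equiv.Perm Ω) * f * 1⁻¹ * f⁻¹ = 1 := by group
          rw [e]
          exact K.one_mem
        inv_mem' := by
          rintro n ⟨hn, hn'⟩
          refine ⟨F.inv_mem hn, fun f hf => ?_⟩
          have h1 := hKn n⁻¹ (F.inv_mem hn) _ (K.inv_mem (hn' f hf))
          have e : n⁻¹ * (n * f * n⁻¹ * f⁻¹)⁻¹ * n⁻¹⁻¹ = n⁻¹ * f * n⁻¹⁻¹ * f⁻¹ := by group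
          rw [e] at h1
          exact h1 }
    have hN1F : N1 ≤ F := fun n hn => hn.1
    have hN1n : ∀ f ∈ F, ∀ n ∈ N1, f * n * f⁻¹ ∈ N1 := by
      rintro g hg n ⟨hn, hn'⟩
      refine ⟨F.mul_mem (F.mul_mem hg hn) (F.inv_mem hg), fun f hf => ?_⟩
      have h1 := hKn g hg _ (hn' (g⁻¹ * f * g) (F.mul_mem (F.mul_mem (F.inv_mem hg) hf) hg))
      have e : g * (n * (g⁻¹ * f * g) * n⁻¹ * (g⁻¹ * f * g)⁻¹) * g⁻¹ =
          g * n * g⁻¹ * f * (g * n * g⁻¹)⁻¹ * f⁻¹ := by group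
      rw [e] at h1
      exact h1
    have hN1t : ¬ Transitive N1 := by
      intro h
      exact hns (hSP1 Ω F K N1 hF hKF hN1F hKn hN1n hKt h (fun n hn f hf => hn.2 f hf))
    have hN1s : Semiregular N1 := (hF.2 N1 hN1F hN1n).resolve_left hN1t
    apply hNs
    rintro κ hκ ⟨a, b⟩ hab
    obtain ⟨k1, hk1, k2, hk2, h | h⟩ := SEMI_mem.1 (hN hκ)
    · rw [h] at hκ hab
      have e : (k1 a, k2 b) = (a, b) := hab
      rw [Prod.mk.injEq] at e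
      have e1 : k1 = 1 := hN1s k1 ⟨hk1, hcomm k1 hk1 k2 hk2 hκ⟩ a e.1
      have hκ' := hNn _ SEMI_sw_mem _ hκ
      rw [SEMI_swpd] at hκ'
      have e2 : k2 = 1 := hN1s k2 ⟨hk2, hcomm k2 hk2 k1 hk1 hκ'⟩ b e.2
      rw [h, e1, e2]
      apply Equiv.ext
      rintro ⟨x, y⟩
      rfl
    · exfalso
      apply hN1t
      have hall : ∀ f ∈ F, f ∈ N1 := by
        intro f hf
        have hg := hNn (SEMI_pd f⁻¹ 1) (SEMI_pd_mem (F.inv_mem hf) F.one_mem) _ (N.inv_mem hκ)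
        have h2 := N.mul_mem hκ hg
        have e : κ * (SEMI_pd f⁻¹ 1 * κ⁻¹ * (SEMI_pd f⁻¹ 1)⁻¹) = SEMI_pd f (k2 * f⁻¹ * k2⁻¹) := by
          have e3 : κ * SEMI_pd f⁻¹ 1 * κ⁻¹ = SEMI_pd 1 (k2 * f⁻¹ * k2⁻¹) := by
            rw [h, mul_inv_rev]
            calc SEMI_pd k1 k2 * SEMI_sw Ω * SEMI_pd f⁻¹ 1 * ((SEMI_sw Ω)⁻¹ * (SEMI_pd k1 k2)⁻¹)
                = SEMI_pd k1 k2 * (SEMI_sw Ω * SEMI_pd f⁻¹ 1 * (SEMI_sw Ω)⁻¹) *
                  (SEMI_pd k1 k2)⁻¹ := by group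
              _ = SEMI_pd 1 (k2 * f⁻¹ * k2⁻¹) := by
                  rw [SEMI_swpd, SEMI_mul, SEMI_inv, SEMI_mul, mul_one, mul_inv_cancel]
          calc κ * (SEMI_pd f⁻¹ 1 * κ⁻¹ * (SEMI_pd f⁻¹ 1)⁻¹)
              = (κ * SEMI_pd f⁻¹ 1 * κ⁻¹) * (SEMI_pd f⁻¹ 1)⁻¹ := by group
            _ = SEMI_pd f (k2 * f⁻¹ * k2⁻¹) := by
                rw [e3, SEMI_inv, SEMI_mul, inv_inv, one_mul, inv_one, mul_one]
        rw [e] at h2
        exact ⟨hf, hcomm f hf _ (F.mul_mem (F.mul_mem hk2 (F.inv_mem hf)) (F.inv_mem hk2)) h2⟩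
      intro x y
      obtain ⟨f, hf, e⟩ := hF.1 x y
      exact ⟨f, hall f hf, e⟩

end Pool.Agent.Work.MP_6d7bb4_psv
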