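import Pool.Agent.Work.MP_6d7bb4_psv.Interface

/-!
# SP1: a commutator criterion
-/

set_option autoImplicit false

namespace Pool.Agent.Work.MP_6d7bb4_psv

theorem p_SP1 : Stmt_SP1 := by
  intro Ω F K N hF hKF hNF hK hN hKt hNt hNK
  let M : Subgroup (Equiv.Perm Ω) :=
    { carrier := {f | f ∈ F ∧ ∀ x, ∃ k ∈ K, f x = k x}
      mul_mem' := by
        rintro f g ⟨hf, hf'⟩ ⟨hg, hg'⟩
        refine ⟨F.mul_mem hf hg, fun x => ?_⟩
        obtain ⟨k, hk, e⟩ := hg' x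
        obtain ⟨k', hk', e'⟩ := hf' (g x)
        refine ⟨k' * k, K.mul_mem hk' hk, ?_⟩
        rw [Equiv.Perm.mul_apply, Equiv.Perm.mul_apply, e', e]
      one_mem' := ⟨F.one_mem, fun x => ⟨1, K.one_mem, rfl⟩⟩
      inv_mem' := by
        rintro f ⟨hf, hf'⟩
        refine ⟨F.inv_mem hf, fun x => ?_⟩
        obtain ⟨k, hk, e⟩ := hf' (f⁻¹ x)
        refine ⟨k⁻¹, K.inv_mem hk, ?_⟩
        have e1 : f (f⁻¹ x) = x := f.apply_symm_apply x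
        rw [e1] at e
        rw [Equiv.Perm.eq_inv_iff_eq]
        exact e.symm }
  have hMF : M ≤ F := fun f hf => hf.1
  have hMn : ∀ f ∈ F, ∀ n ∈ M, f * n * f⁻¹ ∈ M := by
    rintro f hf n ⟨hn, hn'⟩
    refine ⟨F.mul_mem (F.mul_mem hf hn) (F.inv_mem hf), fun x => ?_⟩
    obtain ⟨k, hk, e⟩ := hn' (f⁻¹ x)
    refine ⟨f * k * f⁻¹, hK f hf k hk, ?_⟩
    rw [Equiv.Perm.mul_apply, Equiv.Perm.mul_apply, Equiv.Perm.mul_apply, Equiv.Perm.mul_apply, e]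
  rcases hF.2 M hMF hMn with h | h
  · exfalso
    apply hKt
    intro a b
    obtain ⟨m, hm, e⟩ := h a b
    obtain ⟨k, hk, e'⟩ := hm.2 a
    exact ⟨k, hk, e'.symm.trans e⟩
  · intro σ hσ a ha
    refine h σ ⟨hσ, fun x => ?_⟩ a ha
    obtain ⟨n, hn, rfl⟩ := hNt a x
    refine ⟨(n * σ * n⁻¹ * σ⁻¹)⁻¹, K.inv_mem (hNK n hn σ hσ), ?_⟩
    have e : (n * σ * n⁻¹ * σ⁻¹)⁻¹ = σ * n * σ⁻¹ * n⁻¹ := by group
    have ha' : σ⁻¹ a = a := by
      rw [Equiv.Perm.inv_eq_iff_eq]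
      exact ha.symm
    have e2 : n⁻¹ (n a) = a := n.symm_apply_apply a
    rw [e, Equiv.Perm.mul_apply, Equiv.Perm.mul_apply, Equiv.Perm.mul_apply, e2, ha']

end Pool.Agent.Work.MP_6d7bb4_psv
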