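import Pool.Agent.Work.MP_6d7bb4_psv.Interface
import Pool.Agent.Work.MP_6d7bb4_helper94.Conj

/-! # MP_6d7bb4 psv, block UNI (helper36) -/

set_option autoImplicit false

namespace Pool.Agent.Work.MP_6d7bb4_psv

open Pool.Agent.Work.MP_6d7bb4.helper94

theorem p_UNI (hT : Stmt_TREE) : Stmt_UNI := by
  intro D X C h k hp w0 hw0
  have hc := (hT D).1.connected
  have key : ∀ w, h w = k w := by
    refine Tr.conn_ind' hc {w | h w = k w} hw0 ?_
    intro v hv w hvw
    have h1 : (WG D).Adj (h v) (h w) := Tr.adj_iso h hvw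
    have h2 : (WG D).Adj (k v) (k w) := Tr.adj_iso k hvw
    obtain ⟨i, hi⟩ := WG_adj.mp h1
    obtain ⟨j, hj⟩ := WG_adj.mp h2
    have hv' : h v = k v := hv
    have h3 : C.p (rm i (h v)) = C.p (rm j (h v)) := by
      rw [← hi, hp w, hj, hv']
    have h4 := C.p_rm_inj h3
    show h w = k w
    rw [hi, hj, h4, hv']
  exact RelIso.ext key

end Pool.Agent.Work.MP_6d7bb4_psv
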