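import Pool.Agent.Work.MP_6d7bb4_psv.Interface

/-! # MP_6d7bb4 psv, block WR (helper56) -/

set_option autoImplicit false

namespace Pool.Agent.Work.MP_6d7bb4_psv

section
variable {V : Type} {Γ : SimpleGraph V}

theorem WR_inv_app (g : Γ ≃g Γ) (x : V) : g⁻¹ (g x) = x := RelIso.inv_apply_self g x

theorem WR_app_inv (g : Γ ≃g Γ) (x : V) : g (g⁻¹ x) = x := RelIso.apply_inv_self g x

theorem WR_mul (g h : Γ ≃g Γ) (x : V) : (g * h) x = g (h x) := rfl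

theorem WR_conn (hc : Γ.Connected) (S : Set V) {x : V} (hx : x ∈ S)
    (h : ∀ v ∈ S, ∀ w, Γ.Adj v w → w ∈ S) (v : V) : v ∈ S := by
  have key : ∀ {u v : V}, Γ.Walk u v → u ∈ S → v ∈ S := by
    intro u v w
    induction w with
    | nil => exact fun h => h
    | cons hadj _ ih => exact fun hu => ih (h _ hu _ hadj)
  obtain ⟨w⟩ := hc.preconnected x v
  exact key w hx

/-- `(v, w) ↦ (a v, b w)` -/
def WR_d (a b : Γ ≃g Γ) : Equiv.Perm (V × V) where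
  toFun x := (a x.1, b x.2)
  invFun x := (a⁻¹ x.1, b⁻¹ x.2)
  left_inv x := by
    show (a⁻¹ (a x.1), b⁻¹ (b x.2)) = x
    rw [WR_inv_app, WR_inv_app]
  right_inv x := by
    show (a (a⁻¹ x.1), b (b⁻¹ x.2)) = x
    rw [WR_app_inv, WR_app_inv]

/-- `(v, w) ↦ (a w, b v)` -/
def WR_s (a b : Γ ≃g Γ) : Equiv.Perm (V × V) where
  toFun x := (a x.2, b x.1)
  invFun x := (b⁻¹ x.2, a⁻¹ x.1)
  left_inv x := by
    show (b⁻¹ (b x.1), a⁻¹ (a x.2)) = x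
    rw [WR_inv_app, WR_inv_app]
  right_inv x := by
    show (a (a⁻¹ x.1), b (b⁻¹ x.2)) = x
    rw [WR_app_inv, WR_app_inv]

theorem WR_d_app (a b : Γ ≃g Γ) (x y : V) : WR_d a b (x, y) = (a x, b y) := rfl

theorem WR_s_app (a b : Γ ≃g Γ) (x y : V) : WR_s a b (x, y) = (a y, b x) := rfl

/-- the wreath product -/
def WR_U (H : Subgroup (Γ ≃g Γ)) : Subgroup (Equiv.Perm (V × V)) where
  carrier := {σ | ∃ a ∈ H, ∃ b ∈ H, σ = WR_d a b ∨ σ = WR_s a b}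
  mul_mem' := by
    rintro σ τ ⟨a, ha, b, hb, h1⟩ ⟨c, hc, d, hd, h2⟩
    rcases h1 with rfl | rfl <;> rcases h2 with rfl | rfl
    · exact ⟨a * c, H.mul_mem ha hc, b * d, H.mul_mem hb hd, Or.inl rfl⟩
    · exact ⟨a * c, H.mul_mem ha hc, b * d, H.mul_mem hb hd, Or.inr rfl⟩
    · exact ⟨a * d, H.mul_mem ha hd, b * c, H.mul_mem hb hc, Or.inr rfl⟩
    · exact ⟨a * d, H.mul_mem ha hd, b * c, H.mul_mem hb hc, Or.inl rfl⟩
  one_mem' := ⟨1, H.one_mem, 1, H.one_mem, Or.inl rfl⟩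
  inv_mem' := by
    rintro σ ⟨a, ha, b, hb, h1⟩
    rcases h1 with rfl | rfl
    · exact ⟨a⁻¹, H.inv_mem ha, b⁻¹, H.inv_mem hb, Or.inl rfl⟩
    · exact ⟨b⁻¹, H.inv_mem hb, a⁻¹, H.inv_mem ha, Or.inr rfl⟩

theorem WR_ind {Ω : Type} {F : Subgroup (Equiv.Perm Ω)} {H : Subgroup (Γ ≃g Γ)} {o : V}
    {e : Γ.neighborSet o ≃ Ω} (he : ∀ σ : Equiv.Perm Ω, σ ∈ F ↔ ∃ g ∈ H, g o = o ∧
      ∀ y : Γ.neighborSet o, g (y : V) = ((e.symm (σ (e y)) : Γ.neighborSet o) : V))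
    {a : Γ ≃g Γ} (ha : a ∈ H) (hao : a o = o) :
    ∃ α ∈ F, ∀ x, a (e.symm x).1 = (e.symm (α x)).1 := by
  have h1 : ∀ y : Γ.neighborSet o, Γ.Adj o (a y.1) := by
    intro y
    have h2 : Γ.Adj (a o) (a y.1) := a.map_rel_iff.mpr y.2
    rwa [hao] at h2
  have h1' : ∀ y : Γ.neighborSet o, Γ.Adj o (a⁻¹ y.1) := by
    intro y
    have h2 : Γ.Adj (a⁻¹ o) (a⁻¹ y.1) := (a⁻¹).map_rel_iff.mpr y.2
    have h3 : a⁻¹ o = o := by
      have h4 := WR_inv_app a o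
      rwa [hao] at h4
    rwa [h3] at h2
  let ν : Γ.neighborSet o ≃ Γ.neighborSet o :=
    { toFun := fun y => ⟨a y.1, h1 y⟩
      invFun := fun y => ⟨a⁻¹ y.1, h1' y⟩
      left_inv := fun y => Subtype.ext (WR_inv_app a y.1)
      right_inv := fun y => Subtype.ext (WR_app_inv a y.1) }
  have hν : ∀ y, (ν y).1 = a y.1 := fun _ => rfl
  refine ⟨(e.symm.trans ν).trans e, (he _).mpr ⟨a, ha, hao, fun y => ?_⟩, fun x => ?_⟩
  · show a y.1 = (e.symm (e (ν (e.symm (e y))))).1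
    rw [Equiv.symm_apply_apply, Equiv.symm_apply_apply, hν]
  · show a (e.symm x).1 = (e.symm (e (ν (e.symm x)))).1
    rw [Equiv.symm_apply_apply, hν]

end

theorem p_WR : Stmt_WR := by
  intro Ω V _ F Γ H o hc hfin hloc harc
  obtain ⟨e, he⟩ := hloc o
  have hg : ∀ i : Ω × Ω, ∃ g ∈ H, g o = (e.symm i.1).1 ∧ g (e.symm i.2).1 = o :=
    fun i => harc o (e.symm i.2).1 (e.symm i.1).1 o (e.symm i.2).2 (e.symm i.1).2.symm
  choose g hgH hg1 hg2 using hg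
  have hg3 : ∀ i, (g i)⁻¹ o = (e.symm i.2).1 := by
    intro i
    have h1 := WR_inv_app (g i) (e.symm i.2).1
    rwa [hg2] at h1
  have hfo : ∀ {a b : Γ ≃g Γ}, (a o, b o) = (o, o) → a o = o ∧ b o = o := by
    intro a b h
    exact ⟨congrArg Prod.fst h, congrArg Prod.snd h⟩
  have hinj : Function.Injective
      (fun i : Ω × Ω => (((e.symm i.1).1, (e.symm i.2).1) : V × V)) := by
    rintro ⟨i, j⟩ ⟨i', j'⟩ h
    have h1 : (e.symm i).1 = (e.symm i').1 := congrArg Prod.fst h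
    have h2 : (e.symm j).1 = (e.symm j').1 := congrArg Prod.snd h
    rw [e.symm.injective (Subtype.ext h1), e.symm.injective (Subtype.ext h2)]
  let C : CovDat (Ω × Ω) (V × V) :=
    { U := WR_U H
      x0 := (o, o)
      n := fun i => ((e.symm i.1).1, (e.symm i.2).1)
      T := fun i => WR_s (g i) (g i)⁻¹
      n_inj := hinj
      T_mem := fun i => ⟨g i, hgH i, (g i)⁻¹, H.inv_mem (hgH i), Or.inr rfl⟩
      T_x0 := fun i => by rw [WR_s_app, hg1, hg3]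
      T_sq := fun i => by
        refine Equiv.ext ?_
        rintro ⟨x, y⟩
        rw [Equiv.Perm.mul_apply, WR_s_app, WR_s_app, WR_app_inv, WR_inv_app]
        rfl
      stab := by
        rintro σ ⟨a, ha, b, hb, h1⟩ h2 i
        rcases h1 with rfl | rfl
        · obtain ⟨h3, h4⟩ := hfo h2
          obtain ⟨α, -, hα⟩ := WR_ind he ha h3
          obtain ⟨β, -, hβ⟩ := WR_ind he hb h4
          exact ⟨(α i.1, β i.2), by rw [WR_d_app, hα, hβ]⟩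
        · obtain ⟨h3, h4⟩ := hfo h2
          obtain ⟨α, -, hα⟩ := WR_ind he ha h3
          obtain ⟨β, -, hβ⟩ := WR_ind he hb h4
          exact ⟨(α i.2, β i.1), by rw [WR_s_app, hα, hβ]⟩ }
  have hCU : ∀ σ, σ ∈ C.U ↔ ∃ a ∈ H, ∃ b ∈ H, σ = WR_d a b ∨ σ = WR_s a b := fun _ => Iff.rfl
  have hCn : ∀ i j, C.n (i, j) = ((e.symm i).1, (e.symm j).1) := fun _ _ => rfl
  have hCx : C.x0 = (o, o) := rfl
  refine ⟨C, ?_, ?_, ?_, ?_⟩
  · -- finiteness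
    have h0 := hfin o
    refine (((h0.prod h0).image (fun x => WR_d x.1 x.2)).union
      ((h0.prod h0).image (fun x => WR_s x.1 x.2))).subset ?_
    rintro σ ⟨⟨a, ha, b, hb, h1⟩, h2⟩
    rcases h1 with rfl | rfl
    · obtain ⟨h3, h4⟩ := hfo h2
      exact Or.inl ⟨(a, b), ⟨⟨ha, h3⟩, ⟨hb, h4⟩⟩, rfl⟩
    · obtain ⟨h3, h4⟩ := hfo h2
      exact Or.inr ⟨(a, b), ⟨⟨ha, h3⟩, ⟨hb, h4⟩⟩, rfl⟩
  · -- local action
    intro σ
    rw [mem_prodAct]
    constructor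
    · rintro ⟨α, hα, β, hβ, h1⟩
      obtain ⟨a, ha, ha1, ha2⟩ := (he α).mp hα
      obtain ⟨b, hb, hb1, hb2⟩ := (he β).mp hβ
      have ha3 : ∀ x, a (e.symm x).1 = (e.symm (α x)).1 := by
        intro x
        rw [ha2, Equiv.apply_symm_apply]
      have hb3 : ∀ x, b (e.symm x).1 = (e.symm (β x)).1 := by
        intro x
        rw [hb2, Equiv.apply_symm_apply]
      rcases h1 with h1 | h1
      · refine ⟨WR_d a b, ⟨a, ha, b, hb, Or.inl rfl⟩, ?_, ?_⟩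
        · rw [hCx, WR_d_app, ha1, hb1]
        · rintro ⟨i, j⟩
          rw [h1, hCn, hCn, WR_d_app, ha3, hb3]
      · refine ⟨WR_s a b, ⟨a, ha, b, hb, Or.inr rfl⟩, ?_, ?_⟩
        · rw [hCx, WR_s_app, ha1, hb1]
        · rintro ⟨i, j⟩
          rw [h1, hCn, hCn, WR_s_app, ha3, hb3]
    · rintro ⟨τ, ⟨a, ha, b, hb, h1⟩, h2, h3⟩
      rcases h1 with rfl | rfl
      · obtain ⟨h4, h5⟩ := hfo h2
        obtain ⟨α, hα, hα1⟩ := WR_ind he ha h4
        obtain ⟨β, hβ, hβ1⟩ := WR_ind he hb h5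
        refine ⟨α, hα, β, hβ, Or.inl fun x y => ?_⟩
        have h6 := h3 (x, y)
        rw [hCn, WR_d_app, hα1, hβ1] at h6
        exact (hinj (h6 : C.n (α x, β y) = C.n (σ (x, y)))).symm
      · obtain ⟨h4, h5⟩ := hfo h2
        obtain ⟨α, hα, hα1⟩ := WR_ind he ha h4
        obtain ⟨β, hβ, hβ1⟩ := WR_ind he hb h5
        refine ⟨α, hα, β, hβ, Or.inr fun x y => ?_⟩
        have h6 := h3 (x, y)
        rw [hCn, WR_s_app, hα1, hβ1] at h6
        exact (hinj (h6 : C.n (α y, β x) = C.n (σ (x, y)))).symm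
  · -- the first factor
    intro a ha hao
    refine ⟨WR_d a 1, ⟨a, ha, 1, H.one_mem, Or.inl rfl⟩, ?_, fun x y => rfl⟩
    rw [hCx, WR_d_app, hao]
    rfl
  · -- every vertex is a first coordinate
    refine WR_conn hc {v | ∃ w, (C.p w).1 = v} (x := o) ⟨root _, rfl⟩ ?_
    rintro v ⟨w, hw⟩ v1 hv1
    obtain ⟨a, ha, b, hb, h1⟩ := (hCU _).mp (C.q_mem w)
    have h2 : C.p w = C.q w (o, o) := rfl
    have key : ∀ c : Γ ≃g Γ, (∀ z : V, ∃ z', C.q w (z, z) = (c z, z')) →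
        ∃ w', (C.p w').1 = v1 := by
      intro c hcz
      obtain ⟨z', hz'⟩ := hcz o
      have h3 : c o = v := by
        rw [← hw, h2, hz']
      have h4 : Γ.Adj o (c⁻¹ v1) := by
        have h5 : Γ.Adj (c⁻¹ v) (c⁻¹ v1) := (c⁻¹).map_rel_iff.mpr hv1
        rwa [← h3, WR_inv_app] at h5
      obtain ⟨i, hi⟩ : ∃ i, (e.symm i).1 = c⁻¹ v1 := ⟨e ⟨_, h4⟩, by
        rw [Equiv.symm_apply_apply]⟩
      refine ⟨rm (i, i) w, ?_⟩
      obtain ⟨z'', hz''⟩ := hcz (e.symm i).1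
      rw [C.p_rm, hCn, hz'']
      show c (e.symm i).1 = v1
      rw [hi, WR_app_inv]
    rcases h1 with h1 | h1
    · exact key a (fun z => ⟨b z, by rw [h1, WR_d_app]⟩)
    · exact key a (fun z => ⟨b z, by rw [h1, WR_s_app]⟩)

end Pool.Agent.Work.MP_6d7bb4_psv
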