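import Pool.Agent.Work.MP_6d7bb4_psv.B_TREE
import Pool.Agent.Work.MP_6d7bb4_psv.B_LEFT
import Pool.Agent.Work.MP_6d7bb4_psv.B_ACT
import Pool.Agent.Work.MP_6d7bb4_psv.B_UNI
import Pool.Agent.Work.MP_6d7bb4_psv.B_LFP
import Pool.Agent.Work.MP_6d7bb4_psv.B_WR
import Pool.Agent.Work.MP_6d7bb4_psv.B_BND
import Pool.Agent.Work.MP_6d7bb4_psv.B_NF
import Pool.Agent.Work.MP_6d7bb4_psv.B_DST
import Pool.Agent.Work.MP_6d7bb4_psv.B_CNJ
import Pool.Agent.Work.MP_6d7bb4_psv.B_FIN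
import Pool.Agent.Work.MP_6d7bb4_psv.B_ARC
import Pool.Agent.Work.MP_6d7bb4_psv.B_REG
import Pool.Agent.Work.MP_6d7bb4_psv.B_SP1
import Pool.Agent.Work.MP_6d7bb4_psv.B_SEMI
import Pool.Agent.Work.MP_6d7bb4_psv.B_PRIM
import Pool.Agent.Work.MP_6d7bb4_psv.B_MAIN

/-! # MP_6d7bb4 psv: the theorem (helper56) -/

set_option autoImplicit false

namespace Pool.Agent.Work.MP_6d7bb4_psv

theorem main : Stmt_MAIN := by
  have hU := p_UNI p_TREE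
  have hL := p_LFP p_TREE p_LEFT p_ACT hU
  exact p_MAIN (p_BND p_TREE p_ACT hL p_WR) (p_FIN (p_CNJ p_NF p_DST)) p_ARC p_REG
    (p_SEMI p_SP1) p_PRIM

end Pool.Agent.Work.MP_6d7bb4_psv
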