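import Pool.Agent.Work.MP_6d7bb4_psv.Interface

/-! # Block FIN: bounded stabilisers give finitely many classes (helper18) -/

set_option autoImplicit false

namespace Pool.Agent.Work.MP_6d7bb4_psv

theorem FIN_choice {D X : Type*} [Finite D] [Nonempty X] (Good : D → X → Prop) (P : X → Prop)
    (R : X → X → Prop) (h1 : ∀ x, P x → ∃ d, Good d x)
    (h2 : ∀ d x x', Good d x → Good d x' → R x x') :
    ∃ S : Finset X, ∀ x, P x → ∃ k ∈ S, R k x := by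
  classical
  have := Fintype.ofFinite D
  refine ⟨Finset.univ.image (fun d : D => if h : ∃ x, Good d x then h.choose else
    Classical.arbitrary X), fun x hx => ?_⟩
  obtain ⟨d, hd⟩ := h1 x hx
  have h : ∃ x, Good d x := ⟨x, hd⟩
  refine ⟨_, Finset.mem_image_of_mem _ (Finset.mem_univ d), ?_⟩
  rw [dif_pos h]
  exact h2 d _ _ h.choose_spec hd

/-- The data on `Fin n`. -/
def FIN_D (n : ℕ) : Type :=
  (Fin n → Fin n → Fin n) × (Fin n → Prop) × (Fin n → Fin n) × Fin n × (Fin n → Fin n)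

instance (n : ℕ) : Finite (FIN_D n) := by
  unfold FIN_D
  infer_instance

/-- `H` has the data `d`. -/
def FIN_Good {V : Type} (Γ : SimpleGraph V) (o y : V) (M : ℕ)
    (d : Σ n : Fin (M + 1), FIN_D n) (H : Subgroup (Γ ≃g Γ)) : Prop :=
  ∃ (α : Fin d.1 → (Γ ≃g Γ)) (s : Γ ≃g Γ),
    Tab Γ o y d.2.1 d.2.2.1 d.2.2.2.1 d.2.2.2.2.1 d.2.2.2.2.2 α s ∧
    (∀ g, (g ∈ H ∧ g o = o) ↔ ∃ i, g = α i) ∧ s ∈ H

theorem FIN_ex {V : Type} (Γ : SimpleGraph V) (o y : V) (M : ℕ) (hoy : Γ.Adj o y)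
    (H : Subgroup (Γ ≃g Γ)) (hF : FinStab H) (hA : ArcT H)
    (hM : Nat.card {g : Γ ≃g Γ // g ∈ H ∧ g o = o} ≤ M) :
    ∃ d, FIN_Good Γ o y M d H := by
  classical
  have hfin : Finite {g : Γ ≃g Γ // g ∈ H ∧ g o = o} := (hF o).to_subtype
  set n : ℕ := Nat.card {g : Γ ≃g Γ // g ∈ H ∧ g o = o} with hn
  let ε : Fin n ≃ {g : Γ ≃g Γ // g ∈ H ∧ g o = o} := (Finite.equivFin _).symm
  obtain ⟨s, hs, so, sy⟩ := hA o y y o hoy hoy.symm
  let α : Fin n → (Γ ≃g Γ) := fun i => (ε i).1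
  have hαH : ∀ i, α i ∈ H := fun i => (ε i).2.1
  have hαo : ∀ i, α i o = o := fun i => (ε i).2.2
  have hε : ∀ (g : Γ ≃g Γ) (h : g ∈ H ∧ g o = o), α (ε.symm ⟨g, h⟩) = g := by
    intro g h
    show (ε (ε.symm ⟨g, h⟩)).1 = g
    rw [Equiv.apply_symm_apply]
  have hm : ∀ i j, α i * α j ∈ H ∧ (α i * α j) o = o := fun i j =>
    ⟨H.mul_mem (hαH i) (hαH j), by
      show α i (α j o) = o
      rw [hαo, hαo]⟩
  have h1 : (1 : Γ ≃g Γ) ∈ H ∧ (1 : Γ ≃g Γ) o = o := ⟨H.one_mem, rfl⟩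
  have hv : ∀ i, (α i)⁻¹ ∈ H ∧ (α i)⁻¹ o = o := fun i =>
    ⟨H.inv_mem (hαH i), by
      have h2 : (α i)⁻¹ (α i o) = o := RelIso.inv_apply_self _ _
      rwa [hαo] at h2⟩
  have ht : ∀ i, α i y = y → s * α i * s ∈ H ∧ (s * α i * s) o = o := fun i hi =>
    ⟨H.mul_mem (H.mul_mem hs (hαH i)) hs, by
      show s (α i (s o)) = o
      rw [so, hi, sy]⟩
  refine ⟨⟨⟨n, by omega⟩, (fun i j => ε.symm ⟨α i * α j, hm i j⟩, fun i => α i y = y,
    fun i => if h : α i y = y then ε.symm ⟨s * α i * s, ht i h⟩ else i,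
    ε.symm ⟨1, h1⟩, fun i => ε.symm ⟨(α i)⁻¹, hv i⟩)⟩, α, s, ?_, ?_, hs⟩
  · refine ⟨?_, ?_, ?_, ?_, hαo, ?_, ?_, so, sy, ?_⟩
    · intro i j
      exact (hε _ _).symm
    · exact hε _ _
    · intro i
      exact (hε _ _).symm
    · intro i j h
      exact ε.injective (Subtype.ext h)
    · intro i
      exact Iff.rfl
    · intro i hi
      have hi' : α i y = y := hi
      show s * α i * s = α (if h : α i y = y then ε.symm ⟨s * α i * s, ht i h⟩ else i)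
      rw [dif_pos hi']
      exact (hε _ _).symm
    · intro z hz
      obtain ⟨g, hg, go, gy⟩ := hA o y o z hoy hz
      exact ⟨ε.symm ⟨g, hg, go⟩, by rw [hε]; exact gy⟩
  · intro g
    constructor
    · intro h
      exact ⟨ε.symm ⟨g, h⟩, (hε _ _).symm⟩
    · rintro ⟨i, rfl⟩
      exact ⟨hαH i, hαo i⟩

theorem p_FIN (h1 : Stmt_CNJ) : Stmt_FIN := by
  intro V Γ hΓ o M
  by_cases hex : ∃ y, Γ.Adj o y
  · obtain ⟨y, hoy⟩ := hex
    have : Nonempty (Subgroup (Γ ≃g Γ)) := ⟨⊤⟩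
    obtain ⟨S, hS⟩ := FIN_choice (FIN_Good Γ o y M)
      (fun H : Subgroup (Γ ≃g Γ) => FinStab H ∧ ArcT H ∧
        Nat.card {g : Γ ≃g Γ // g ∈ H ∧ g o = o} ≤ M)
      (fun K H => ∃ a : Γ ≃g Γ, H = K.map (MulAut.conj a).toMonoidHom)
      (fun H hH => FIN_ex Γ o y M hoy H hH.1 hH.2.1 hH.2.2) (by
        rintro ⟨n, m, b, t, e, v⟩ K H ⟨α, s, hT, hα, hs⟩ ⟨α', s', hT', hα', hs'⟩
        exact h1 (Fin n) V Γ hΓ o y hoy m b t e v α α' s s' hT hT' K H hα hs hα' hs')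
    exact ⟨S, hS⟩
  · -- `V` is a point
    have hV : ∀ v : V, v = o := by
      intro v
      by_contra hv
      obtain ⟨w⟩ := hΓ.1.preconnected o v
      cases w with
      | nil => exact hv rfl
      | cons h _ => exact hex ⟨_, h⟩
    have : Subsingleton (Γ ≃g Γ) := ⟨fun g h => by
      apply RelIso.ext
      intro v
      rw [hV (g v), hV (h v)]⟩
    refine ⟨{⊤}, fun H _ => ⟨⊤, Finset.mem_singleton_self _, 1, ?_⟩⟩
    ext g
    have hg : g = 1 := Subsingleton.elim _ _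
    subst hg
    simp only [Subgroup.one_mem]

end Pool.Agent.Work.MP_6d7bb4_psv
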