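import Pool.Agent.Work.MP_6d7bb4_psv.Interface

/-! Block TREE: the graph of reduced words is the regular tree. -/

set_option autoImplicit false

namespace Pool.Agent.Work.MP_6d7bb4_psv

/-- the unique shorter neighbour -/
theorem TREE_par {D : Type} {w : W D} {i j : D} (hi : (rm i w).1.length < w.1.length)
    (hj : (rm j w).1.length < w.1.length) : i = j := by
  obtain ⟨u, h⟩ := w
  cases u with
  | nil => simp at hi
  | cons k u =>
    have key : ∀ i : D, (rm i (⟨k :: u, h⟩ : W D)).1.length < (k :: u).length → k = i := by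
      intro i hi
      by_contra hk
      rw [rm_ne hk] at hi
      simp at hi
    exact (key i hi).symm.trans (key j hj)

theorem TREE_acyclic (D : Type) : (WG D).IsAcyclic := by
  intro v c hc
  classical
  obtain ⟨w, hw, hmax⟩ := Finset.exists_max_image c.support.toFinset (fun w : W D => w.1.length)
    ⟨v, by simp⟩
  have hws : w ∈ c.support := List.mem_toFinset.mp hw
  have hc' : (c.rotate w hws).IsCycle := hc.rotate hws
  have hnil : ¬ (c.rotate w hws).Nil := hc'.not_nil
  have h1 := SimpleGraph.Walk.adj_snd hnil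
  have h2 := SimpleGraph.Walk.adj_penultimate hnil
  have s1 : (c.rotate w hws).snd ∈ c.support :=
    (SimpleGraph.Walk.mem_support_rotate_iff c w hws).mp
      (SimpleGraph.Walk.getVert_mem_support _ _)
  have s2 : (c.rotate w hws).penultimate ∈ c.support :=
    (SimpleGraph.Walk.mem_support_rotate_iff c w hws).mp
      (SimpleGraph.Walk.getVert_mem_support _ _)
  have m1 := hmax _ (List.mem_toFinset.mpr s1)
  have m2 := hmax _ (List.mem_toFinset.mpr s2)
  obtain ⟨i, hi⟩ := h1
  obtain ⟨j, hj⟩ := h2.symm
  apply hc'.snd_ne_penultimate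
  rw [hi, hj]
  rw [hi] at m1
  rw [hj] at m2
  have l1 := rm_len i w
  have l2 := rm_len j w
  rw [TREE_par (w := w) (i := i) (j := j) (by omega) (by omega)]

theorem TREE_conn (D : Type) : (WG D).Connected := by
  have h : ∀ w : W D, (WG D).Reachable (root D) w := by
    intro w
    refine W_ind (P := fun w => (WG D).Reachable (root D) w) (SimpleGraph.Reachable.refl _) ?_ w
    intro j w hw
    exact hw.trans (SimpleGraph.Adj.reachable (⟨j, rfl⟩ : (WG D).Adj w (rm j w)))
  have : Nonempty (W D) := ⟨root D⟩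
  exact SimpleGraph.Connected.mk (fun a b => (h a).symm.trans (h b))

theorem p_TREE : Stmt_TREE := by
  intro D
  refine ⟨⟨TREE_conn D, TREE_acyclic D⟩, fun w => ?_⟩
  refine ⟨(Equiv.ofBijective
    (fun j : D => (⟨rm j w, ⟨j, rfl⟩⟩ : (WG D).neighborSet w)) ⟨?_, ?_⟩).symm⟩
  · intro i j h
    exact rm_inj (congrArg Subtype.val h)
  · rintro ⟨x, j, hj⟩
    exact ⟨j, Subtype.ext hj.symm⟩

end Pool.Agent.Work.MP_6d7bb4_psv
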