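import Mathlib

/-!
# MP_6d7bb4: Q1 is equivalent to the Potocnik-Spiga-Verret conjecture (definitions, helper56)

`RegTree`, `FinStab`, `LocAct`, `InvInv`, `VTrans`, `FinCls`, `Q1`, `PSV`, `Semiprim`, `Prim`, `Regular`,
`prodAct` are the notions of the statement. `W D`, `rm`, `WG D`: the tree of reduced words in `D`
(words are stored backwards: the head of the list is the last letter). `CovDat`: a set `X` with a
group `U` of permutations, a base point `x0`, its neighbours `n i` and involutions `T i ∈ U` with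
`T i x0 = n i`; `C.q` the product of the involutions along a word, `C.p w = C.q w x0`, `C.Lf` the group
of all automorphisms of the tree of words which lift an element of `U`.
-/

set_option autoImplicit false

namespace Pool.Agent.Work.MP_6d7bb4_psv

/-- `Γ` is the `|Ω|`-regular tree -/
def RegTree (Ω : Type) {V : Type} (Γ : SimpleGraph V) : Prop :=
  Γ.IsTree ∧ ∀ v : V, Nonempty (Γ.neighborSet v ≃ Ω)

/-- finite vertex stabilisers (`H` is discrete) -/
def FinStab {V : Type} {Γ : SimpleGraph V} (H : Subgroup (Γ ≃g Γ)) : Prop :=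
  ∀ v : V, {g : Γ ≃g Γ | g ∈ H ∧ g v = v}.Finite

/-- `H` acts locally like `F` at every vertex -/
def LocAct {Ω V : Type} {Γ : SimpleGraph V} (H : Subgroup (Γ ≃g Γ))
    (F : Subgroup (Equiv.Perm Ω)) : Prop :=
  ∀ x : V, ∃ e : Γ.neighborSet x ≃ Ω, ∀ σ : Equiv.Perm Ω,
    σ ∈ F ↔ ∃ g ∈ H, g x = x ∧
      ∀ y : Γ.neighborSet x, g (y : V) = ((e.symm (σ (e y)) : Γ.neighborSet x) : V)

/-- `H` contains an involutive inversion -/
def InvInv {V : Type} {Γ : SimpleGraph V} (H : Subgroup (Γ ≃g Γ)) : Prop :=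
  ∃ g ∈ H, ∃ x y : V, Γ.Adj x y ∧ g x = y ∧ g y = x ∧ g * g = 1

/-- `H` is vertex-transitive -/
def VTrans {V : Type} {Γ : SimpleGraph V} (H : Subgroup (Γ ≃g Γ)) : Prop :=
  ∀ x y : V, ∃ g ∈ H, g x = y

/-- `H` is transitive on arcs -/
def ArcT {V : Type} {Γ : SimpleGraph V} (H : Subgroup (Γ ≃g Γ)) : Prop :=
  ∀ x y x' y' : V, Γ.Adj x y → Γ.Adj x' y' → ∃ g ∈ H, g x = x' ∧ g y = y'

/-- the groups with property `P` fall into finitely many conjugacy classes -/
def FinCls {V : Type} {Γ : SimpleGraph V} (P : Subgroup (Γ ≃g Γ) → Prop) : Prop :=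
  ∃ S : Finset (Subgroup (Γ ≃g Γ)), ∀ H : Subgroup (Γ ≃g Γ), P H →
    ∃ K ∈ S, ∃ a : Γ ≃g Γ, H = K.map (MulAut.conj a).toMonoidHom

/-- The assertion of Q1 for the group `F`: the discrete groups acting locally like `F` which contain an
involutive inversion fall into finitely many conjugacy classes. -/
def Q1 {Ω : Type} (F : Subgroup (Equiv.Perm Ω)) : Prop :=
  ∀ (V : Type) (Γ : SimpleGraph V), RegTree Ω Γ →
    FinCls (fun H : Subgroup (Γ ≃g Γ) => FinStab H ∧ LocAct H F ∧ InvInv H)

/-- The assertion of the conjecture of Potocnik, Spiga and Verret for the group `F`: the discrete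
vertex-transitive groups acting locally like `F` fall into finitely many conjugacy classes. -/
def PSV {Ω : Type} (F : Subgroup (Equiv.Perm Ω)) : Prop :=
  ∀ (V : Type) (Γ : SimpleGraph V), RegTree Ω Γ →
    FinCls (fun H : Subgroup (Γ ≃g Γ) => FinStab H ∧ LocAct H F ∧ VTrans H)

/-- transitive -/
def Transitive {Ω : Type} (F : Subgroup (Equiv.Perm Ω)) : Prop := ∀ a b : Ω, ∃ σ ∈ F, σ a = b

/-- semiregular: only the identity has fixed points -/
def Semiregular {Ω : Type} (F : Subgroup (Equiv.Perm Ω)) : Prop :=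
  ∀ σ ∈ F, ∀ a : Ω, σ a = a → σ = 1

/-- semiprimitive: transitive, every normal subgroup is transitive or semiregular -/
def Semiprim {Ω : Type} (F : Subgroup (Equiv.Perm Ω)) : Prop :=
  Transitive F ∧ ∀ N : Subgroup (Equiv.Perm Ω), N ≤ F →
    (∀ f ∈ F, ∀ n ∈ N, f * n * f⁻¹ ∈ N) → Transitive N ∨ Semiregular N

/-- primitive: transitive, only the two trivial invariant equivalence relations -/
def Prim {Ω : Type} (F : Subgroup (Equiv.Perm Ω)) : Prop :=
  Transitive F ∧ ∀ r : Setoid Ω, (∀ f ∈ F, ∀ a b : Ω, r a b → r (f a) (f b)) →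
    (∀ a b : Ω, r a b → a = b) ∨ ∀ a b : Ω, r a b

/-- the wreath product of `F` with the group of order two in its product action on `Ω × Ω` -/
def prodAct {Ω : Type} (F : Subgroup (Equiv.Perm Ω)) : Subgroup (Equiv.Perm (Ω × Ω)) where
  carrier := {σ | ∃ a ∈ F, ∃ b ∈ F,
    (∀ x y : Ω, σ (x, y) = (a x, b y)) ∨ (∀ x y : Ω, σ (x, y) = (a y, b x))}
  mul_mem' := by
    rintro σ τ ⟨a, ha, b, hb, h1⟩ ⟨c, hc, d, hd, h2⟩
    rcases h1 with h1 | h1 <;> rcases h2 with h2 | h2
    · exact ⟨a * c, F.mul_mem ha hc, b * d, F.mul_mem hb hd, Or.inl fun x y => by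
        rw [Equiv.Perm.mul_apply, h2, h1]; rfl⟩
    · exact ⟨a * c, F.mul_mem ha hc, b * d, F.mul_mem hb hd, Or.inr fun x y => by
        rw [Equiv.Perm.mul_apply, h2, h1]; rfl⟩
    · exact ⟨a * d, F.mul_mem ha hd, b * c, F.mul_mem hb hc, Or.inr fun x y => by
        rw [Equiv.Perm.mul_apply, h2, h1]; rfl⟩
    · exact ⟨a * d, F.mul_mem ha hd, b * c, F.mul_mem hb hc, Or.inl fun x y => by
        rw [Equiv.Perm.mul_apply, h2, h1]; rfl⟩
  one_mem' := ⟨1, F.one_mem, 1, F.one_mem, Or.inl fun _ _ => rfl⟩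
  inv_mem' := by
    rintro σ ⟨a, ha, b, hb, h1⟩
    rcases h1 with h1 | h1
    · refine ⟨a⁻¹, F.inv_mem ha, b⁻¹, F.inv_mem hb, Or.inl fun x y => ?_⟩
      rw [Equiv.Perm.inv_eq_iff_eq, h1]
      simp
    · refine ⟨b⁻¹, F.inv_mem hb, a⁻¹, F.inv_mem ha, Or.inr fun x y => ?_⟩
      rw [Equiv.Perm.inv_eq_iff_eq, h1]
      simp

theorem mem_prodAct {Ω : Type} {F : Subgroup (Equiv.Perm Ω)} {σ : Equiv.Perm (Ω × Ω)} :
    σ ∈ prodAct F ↔ ∃ a ∈ F, ∃ b ∈ F,
      (∀ x y : Ω, σ (x, y) = (a x, b y)) ∨ (∀ x y : Ω, σ (x, y) = (a y, b x)) := Iff.rfl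

/-! ### The tree of reduced words -/

/-- reduced words: no two consecutive letters are equal; the head of the list is the last letter -/
abbrev W (D : Type) : Type := {u : List D // u.IsChain (· ≠ ·)}

theorem ct {D : Type} {i : D} {u : List D} (h : (i :: u).IsChain (· ≠ ·)) :
    u.IsChain (· ≠ ·) := h.tail

/-- the empty word -/
def root (D : Type) : W D := ⟨[], List.isChain_nil⟩

open Classical in
/-- right multiplication by the generator `j` -/
noncomputable def rm {D : Type} (j : D) : W D → W D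
  | ⟨[], _⟩ => ⟨[j], List.isChain_singleton _⟩
  | ⟨i :: u, h⟩ => if hij : i = j then ⟨u, ct h⟩ else
      ⟨j :: i :: u, List.isChain_cons_cons.mpr ⟨fun e => hij e.symm, h⟩⟩

theorem rm_nil {D : Type} (j : D) : rm j (root D) = ⟨[j], List.isChain_singleton _⟩ := rfl

theorem rm_same {D : Type} (j : D) (u : List D) (h : (j :: u).IsChain (· ≠ ·)) :
    rm j ⟨j :: u, h⟩ = ⟨u, ct h⟩ := dif_pos rfl

theorem rm_ne {D : Type} {j i : D} (hij : i ≠ j) (u : List D) (h : (i :: u).IsChain (· ≠ ·)) :
    rm j ⟨i :: u, h⟩ = ⟨j :: i :: u, List.isChain_cons_cons.mpr ⟨fun e => hij e.symm, h⟩⟩ :=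
  dif_neg hij

/-- a reduced word `j :: u` is obtained from `u` by right multiplication with `j` -/
theorem rm_cons {D : Type} (j : D) (u : List D) (h : (j :: u).IsChain (· ≠ ·)) :
    (⟨j :: u, h⟩ : W D) = rm j ⟨u, ct h⟩ := by
  cases u with
  | nil => rfl
  | cons i u =>
    have h1 := (List.isChain_cons_cons.mp h).1
    exact (rm_ne (fun e => h1 e.symm) u _).symm

theorem rm_rm {D : Type} (j : D) (w : W D) : rm j (rm j w) = w := by
  obtain ⟨u, h⟩ := w
  cases u with
  | nil => exact rm_same j [] _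
  | cons i u =>
    by_cases hij : i = j
    · subst hij
      rw [rm_same, ← rm_cons]
    · rw [rm_ne hij, rm_same]

theorem rm_inj {D : Type} {i j : D} {w : W D} (h : rm i w = rm j w) : i = j := by
  obtain ⟨u, hu⟩ := w
  cases u with
  | nil =>
    have h1 := congrArg Subtype.val h
    have h2 : [i] = [j] := h1
    exact (List.cons.inj h2).1
  | cons k u =>
    by_cases hi : k = i <;> by_cases hj : k = j
    · rw [← hi, ← hj]
    · subst hi
      rw [rm_same, rm_ne hj] at h
      have h1 : u = j :: k :: u := congrArg Subtype.val h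
      have h2 := congrArg List.length h1
      simp at h2
      omega
    · subst hj
      rw [rm_same, rm_ne hi] at h
      have h1 : i :: k :: u = u := congrArg Subtype.val h
      have h2 := congrArg List.length h1
      simp at h2
      omega
    · rw [rm_ne hi, rm_ne hj] at h
      have h1 : i :: k :: u = j :: k :: u := congrArg Subtype.val h
      exact (List.cons.inj h1).1

theorem rm_len {D : Type} (j : D) (w : W D) :
    (rm j w).1.length = w.1.length + 1 ∨ (rm j w).1.length + 1 = w.1.length := by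
  obtain ⟨u, h⟩ := w
  cases u with
  | nil => exact Or.inl rfl
  | cons i u =>
    by_cases hij : i = j
    · subst hij
      rw [rm_same]
      exact Or.inr rfl
    · rw [rm_ne hij]
      exact Or.inl rfl

theorem rm_ne_self {D : Type} (j : D) (w : W D) : rm j w ≠ w := by
  intro h
  have h1 := rm_len j w
  rw [h] at h1
  omega

/-- the tree of reduced words -/
def WG (D : Type) : SimpleGraph (W D) where
  Adj v w := ∃ j, w = rm j v
  symm := ⟨by
    rintro v w ⟨j, rfl⟩
    exact ⟨j, (rm_rm j v).symm⟩⟩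
  loopless := ⟨by
    rintro v ⟨j, h⟩
    exact rm_ne_self j v h.symm⟩

theorem WG_adj {D : Type} {v w : W D} : (WG D).Adj v w ↔ ∃ j, w = rm j v := Iff.rfl

/-- induction on reduced words -/
theorem W_ind {D : Type} {P : W D → Prop} (h0 : P (root D)) (h1 : ∀ j w, P w → P (rm j w))
    (w : W D) : P w := by
  obtain ⟨u, h⟩ := w
  induction u with
  | nil => exact h0
  | cons i u ih =>
    rw [rm_cons]
    exact h1 i _ (ih (ct h))

/-! ### Covering data -/

/-- covering data: see the header -/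
structure CovDat (D X : Type) where
  /-- the group -/
  U : Subgroup (Equiv.Perm X)
  /-- the base point -/
  x0 : X
  /-- the neighbours of the base point -/
  n : D → X
  /-- the involutions -/
  T : D → Equiv.Perm X
  n_inj : Function.Injective n
  T_mem : ∀ i, T i ∈ U
  T_x0 : ∀ i, T i x0 = n i
  T_sq : ∀ i, T i * T i = 1
  stab : ∀ g ∈ U, g x0 = x0 → ∀ i, ∃ j, g (n i) = n j

namespace CovDat
variable {D X : Type} (C : CovDat D X)

/-- the product of the involutions along a list (the head is the last letter) -/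
def qL : List D → Equiv.Perm X
  | [] => 1
  | i :: u => qL u * C.T i

/-- the product of the involutions along a word -/
def q (w : W D) : Equiv.Perm X := C.qL w.1

/-- the covering map -/
def p (w : W D) : X := C.q w C.x0

theorem q_root : C.q (root D) = 1 := rfl

theorem q_rm (j : D) (w : W D) : C.q (rm j w) = C.q w * C.T j := by
  obtain ⟨u, h⟩ := w
  cases u with
  | nil => rfl
  | cons i u =>
    by_cases hij : i = j
    · subst hij
      rw [rm_same]
      show C.qL u = C.qL u * C.T i * C.T i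
      rw [mul_assoc, C.T_sq, mul_one]
    · rw [rm_ne hij]
      rfl

theorem q_mem (w : W D) : C.q w ∈ C.U :=
  W_ind (P := fun w => C.q w ∈ C.U) C.U.one_mem
    (fun j w h => by rw [C.q_rm]; exact C.U.mul_mem h (C.T_mem j)) w

theorem p_root : C.p (root D) = C.x0 := rfl

theorem p_rm (j : D) (w : W D) : C.p (rm j w) = C.q w (C.n j) := by
  show C.q (rm j w) C.x0 = _
  rw [C.q_rm, Equiv.Perm.mul_apply, C.T_x0]

/-- the covering map is injective on the neighbours of a vertex -/
theorem p_rm_inj {i j : D} {w : W D} (h : C.p (rm i w) = C.p (rm j w)) : i = j := by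
  rw [C.p_rm, C.p_rm] at h
  exact C.n_inj ((C.q w).injective h)

/-- the group of all automorphisms of the tree of words that lift an element of `U` -/
def Lf : Subgroup (WG D ≃g WG D) where
  carrier := {h | ∃ g ∈ C.U, ∀ w, C.p (h w) = g (C.p w)}
  mul_mem' := by
    rintro h k ⟨g, hg, h1⟩ ⟨g', hg', h2⟩
    exact ⟨g * g', C.U.mul_mem hg hg', fun w => by
      show C.p (h (k w)) = _
      rw [h1, h2]
      rfl⟩
  one_mem' := ⟨1, C.U.one_mem, fun _ => rfl⟩
  inv_mem' := by
    rintro h ⟨g, hg, h1⟩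
    refine ⟨g⁻¹, C.U.inv_mem hg, fun w => ?_⟩
    have h2 := h1 (h⁻¹ w)
    have h3 : h (h⁻¹ w) = w := RelIso.apply_inv_self h w
    rw [h3] at h2
    rw [h2]
    exact (g.symm_apply_apply _).symm

theorem mem_Lf {h : WG D ≃g WG D} : h ∈ C.Lf ↔ ∃ g ∈ C.U, ∀ w, C.p (h w) = g (C.p w) := Iff.rfl

end CovDat

end Pool.Agent.Work.MP_6d7bb4_psv
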