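import Pool.Agent.Work.MP_6d7bb4_psv.Basic

/-!
# MP_6d7bb4: Q1 is equivalent to the Potocnik-Spiga-Verret conjecture (statements of the blocks)

Theorem. (1) For every transitive `F`: Q1 for `F wr S_2` (product action on `Ω × Ω`) implies the
PSV conjecture for `F`. (2) If `F` is semiprimitive (primitive) and not regular, so is `F wr S_2` in
product action. (3) Hence Q1 for all semiprimitive groups is equivalent to the PSV conjecture, and Q1
for all primitive groups is equivalent to the Weiss conjecture.

Idea. `G` discrete, arc-transitive, locally `F` on the tree `Γ`. Let `G wr S_2` act on `V × V`. For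
neighbours `i, j` of `o` there is `g ∈ G` with `g o = i`, `g j = o`; the element
`(v, w) ↦ (g w, g⁻¹ v)` is an INVOLUTION and maps `(o, o)` to `(i, j)`. So `G wr S_2` acts on the
universal cover of (a component of) the tensor square of `Γ`, a tree of valency `|Ω|^2`, with vertex
stabiliser `G_o wr S_2`, locally like `F wr S_2`, and with involutive inversions. The stabiliser is at
least as large as `G_o`, so Q1 for `F wr S_2` bounds `|G_o|`; an amalgam argument (FIN) finishes.

Every block: file `B_X.lean` in this folder, `import Pool.Agent.Work.MP_6d7bb4_psv.Interface`,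
`namespace Pool.Agent.Work.MP_6d7bb4_psv`, `theorem p_X (h1 : Stmt_Y) ... : Stmt_X` (the uses in
order), helper lemmas prefixed `X_`. Useful proved lemmas on automorphisms of trees are in
`Pool/Agent/Work/MP_6d7bb4_helper94/Conj.lean` (namespace `Pool.Agent.Work.MP_6d7bb4.helper94.Tr`,
imports Mathlib only: `dist_iso`, `inv_app`, `app_inv`, `mul_app`, `adj_iso`, `conn_ind'`,
`closer_unique`, `closer_exists`, `sys_conj`); it may be imported.
-/

set_option autoImplicit false

namespace Pool.Agent.Work.MP_6d7bb4_psv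

/-! ### Part 1: the tree of words and the lifted group -/

/-- TREE. The graph of reduced words is the `|D|`-regular tree.
Connected: `W_ind`, every word is joined to the root. Acyclic: in a cycle take a vertex `w` of maximal
length; its two neighbours in the cycle are distinct, of the form `rm i w`, `rm j w`; their lengths
differ from that of `w` by one (`rm_len`), so they are smaller by one; but `rm j w` is shorter than `w`
only if `w = j :: u` (then it is `u`), so the two neighbours coincide. (Other ways are possible, for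
example uniqueness of paths by induction.) Neighbours of `w`: `j ↦ rm j w` is a bijection from `D`
(`rm_inj`). -/
def Stmt_TREE : Prop := ∀ D : Type, RegTree D (WG D)

/-- LEFT. Left multiplication by the generator `i`.
Define `L` on lists by recursion: `L [] = [i]`, `L (j :: u) = rm j (L u)` (in `W D`). Then
`L (rm j w) = rm j (L w)` for all reduced `w`: if `w` does not start with `j` this is the definition
(`rm_cons`), if `w = j :: u` then `rm j (L w) = rm j (rm j (L u)) = L u` (`rm_rm`).
`L (L w) = w` by `W_ind` (`L (L root) = L (rm i root) = rm i (L root) = rm i (rm i root) = root`). So `L`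
is an involutive automorphism of `WG D`. `C.q (L w) = C.T i * C.q w` by `W_ind` and `C.q_rm`
(`C.q (rm i root) = C.T i`). -/
def Stmt_LEFT : Prop :=
  ∀ (D X : Type) (C : CovDat D X) (i : D), ∃ L : WG D ≃g WG D,
    L (root D) = rm i (root D) ∧ (∀ w j, L (rm j w) = rm j (L w)) ∧ L * L = 1 ∧
      ∀ w, C.p (L w) = C.T i (C.p w)

/-- ACT. Elements of `U` that fix the base point lift.
Invariant: words `w, w'` with `C.p w' = g (C.p w)`; then `k = (C.q w')⁻¹ * g * C.q w` lies in `U` and
fixes `x0` (`C.p w = C.q w x0`), so for every `j` there is (by `C.stab`) a unique `ν` with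
`k (n j) = n ν`, that is `C.p (rm ν w') = g (C.p (rm j w))` (`C.p_rm`). Define `h` on lists:
`h [] = root`, `h (j :: u) = rm ν (h u)` with this `ν` (by choice; carry the invariant in a subtype or
define `h` by `Classical.epsilon` and prove the invariant afterwards). `h` never backtracks: for a
reduced word `j :: i :: u`, with `h (i :: u) = rm μ (h u)`, the letter `ν` of `j` is not `μ`, since
`rm μ (rm μ (h u)) = h u` lies over `g (C.p u)` and `C.p (j :: i :: u) ≠ C.p u` (`p_rm_inj`). So
`h (i_n … i_1)` is a list of the same length, `h (rm j w)` is a neighbour of `h w` for all `w, j`. The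
same construction for `g⁻¹` gives `h'`, and `h' (h w) = w` by `W_ind`-like induction on the list
(both lie over the same points and start at the root, `p_rm_inj`). -/
def Stmt_ACT : Prop :=
  ∀ (D X : Type) (C : CovDat D X), ∀ g ∈ C.U, g C.x0 = C.x0 →
    ∃ h : WG D ≃g WG D, h (root D) = root D ∧ ∀ w, C.p (h w) = g (C.p w)

/-- UNI. Uniqueness of lifts. The set of `w` with `h w = k w` contains a vertex and is closed under
adjacency: `h (rm j w)`, `k (rm j w)` are neighbours of `h w = k w` over the same point
(`WG_adj`, `p_rm_inj`). Connectedness: Stmt_TREE. -/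
def Stmt_UNI : Prop :=
  ∀ (D X : Type) (C : CovDat D X) (h k : WG D ≃g WG D), (∀ w, C.p (h w) = C.p (k w)) →
    ∀ w0, h w0 = k w0 → h = k

/-- LFP. Properties of the lifted group. VTrans: the `L`'s of LEFT lie in `C.Lf`; every vertex is the
image of the root under a product of them (`L_i` commutes with `rm j`: the vertex `rm j w` is
`M (rm j root) = M L_j root` if `w = M root`, where `M` is a product of `L`'s, which commutes with
all `rm j`). InvInv: `L` of LEFT exchanges `root` and `rm i root`. FinStab: at the root choose for `h`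
the element `g` of the definition of `Lf`; `g x0 = x0`; `h ↦ g` is injective by UNI; other vertices by
conjugation. LocAct: at the root, neighbours `rm i root ↔ i`; (⇒) `σ ∈ F'` gives `g`, ACT gives `h` with
`p (h (rm i root)) = g (n i) = n (σ i)`, and `h (rm i root)` is a neighbour `rm j root` of the root, so
`j = σ i`; (⇐) clear. Other vertices `v`: conjugate by `k ∈ Lf`, `k root = v`. -/
def Stmt_LFP : Prop :=
  ∀ (D X : Type) (C : CovDat D X), Nonempty D → {g | g ∈ C.U ∧ g C.x0 = C.x0}.Finite →
    ∀ F' : Subgroup (Equiv.Perm D),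
      (∀ σ : Equiv.Perm D, σ ∈ F' ↔ ∃ g ∈ C.U, g C.x0 = C.x0 ∧ ∀ i, g (C.n i) = C.n (σ i)) →
      FinStab C.Lf ∧ LocAct C.Lf F' ∧ InvInv C.Lf ∧ VTrans C.Lf

/-- WR. The wreath product. Let `e : neighbours of o ≃ Ω` come from `LocAct H F o`. `U` = all
permutations of `V × V` of the form `(v, w) ↦ (a v, b w)` or `(v, w) ↦ (a w, b v)`, `a, b ∈ H`;
`x0 = (o, o)`; `n (i, j) = (e⁻¹ i, e⁻¹ j)`; `T (i, j) : (v, w) ↦ (g w, g⁻¹ v)` where `g ∈ H` (by ArcT)
maps `o` to `e⁻¹ i` and `e⁻¹ j` to `o` (an involution!). The local action: if `a, b` fix `o` then `a, b`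
act on the neighbours of `o` by elements of `F` (LocAct at `o`), and every element of `F` occurs.
Finiteness: FinStab at `o`. Last claim: the set of `v` with such a `w` contains `o` and is closed under
adjacency: if `C.p w = (v, v')` and `v1` is adjacent to `v` then `C.q w ∈ U` maps the `n (i, j)` onto
all pairs of neighbours, so `C.p (rm (i, j) w) = C.q w (n (i, j))` has first coordinate `v1` for some
`(i, j)`. -/
def Stmt_WR : Prop :=
  ∀ (Ω V : Type) [Finite Ω] (F : Subgroup (Equiv.Perm Ω)) (Γ : SimpleGraph V)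
    (H : Subgroup (Γ ≃g Γ)) (o : V), Γ.Connected → FinStab H → LocAct H F → ArcT H →
    ∃ C : CovDat (Ω × Ω) (V × V), {g | g ∈ C.U ∧ g C.x0 = C.x0}.Finite ∧
      (∀ σ : Equiv.Perm (Ω × Ω), σ ∈ prodAct F ↔
        ∃ g ∈ C.U, g C.x0 = C.x0 ∧ ∀ i, g (C.n i) = C.n (σ i)) ∧
      (∀ a ∈ H, a o = o → ∃ g ∈ C.U, g C.x0 = C.x0 ∧ ∀ x y : V, g (x, y) = (a x, y)) ∧
      ∀ v : V, ∃ w, (C.p w).1 = v

/-- BND. Q1 for `F wr S_2` bounds the vertex stabilisers. Let `S` be the finite set of Q1
(prodAct F) for the tree `WG (Ω × Ω)` (TREE), `M` the maximum over `K ∈ S` of the number of elements of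
`K` fixing the root. For `H` take `C` of WR; `C.Lf` has the properties of Q1 (LFP), so
`C.Lf = a K a⁻¹`, `K ∈ S`; `K` is vertex-transitive as `C.Lf` is, so the stabilisers of all vertices in
`K` and in `C.Lf` have the same number of elements, `≤ M` and finite. For `a ∈ H`, `a o = o`, WR and ACT
give `h ∈ C.Lf` fixing the root with `C.p (h w) = (a (C.p w).1, (C.p w).2)`; `a ↦ h` is injective by
the last claim of WR. -/
def Stmt_BND : Prop :=
  ∀ (Ω : Type) [Finite Ω], Nonempty Ω → ∀ (F : Subgroup (Equiv.Perm Ω)), Q1 (prodAct F) →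
    ∀ (V : Type) (Γ : SimpleGraph V), RegTree Ω Γ → ∀ o : V, ∃ M : ℕ,
      ∀ H : Subgroup (Γ ≃g Γ), FinStab H → LocAct H F → ArcT H →
        Nat.card {g : Γ ≃g Γ // g ∈ H ∧ g o = o} ≤ M

/-! ### Part 2: finitely many classes of bounded stabiliser order -/

/-- The tables of a group with stabiliser `{α i}` of `o` and an element `s` exchanging `o` and `y`. -/
structure Tab {I V : Type} (Γ : SimpleGraph V) (o y : V) (m : I → I → I) (b : I → Prop) (t : I → I)
    (e : I) (v : I → I) (α : I → (Γ ≃g Γ)) (s : Γ ≃g Γ) : Prop where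
  mul : ∀ i j, α i * α j = α (m i j)
  one : α e = 1
  inv : ∀ i, (α i)⁻¹ = α (v i)
  inj : Function.Injective α
  fix : ∀ i, α i o = o
  bb : ∀ i, b i ↔ α i y = y
  tt : ∀ i, b i → s * α i * s = α (t i)
  so : s o = y
  sy : s y = o
  loc : ∀ z, Γ.Adj o z → ∃ i, α i y = z

/-- evaluation of a word -/
def E {I V : Type} {Γ : SimpleGraph V} (α : I → (Γ ≃g Γ)) (s : Γ ≃g Γ) : List I → (Γ ≃g Γ)
  | [] => 1
  | i :: w => α i * s * E α s w

/-- all letters but the first are outside `b` -/
def Redu {I : Type} (b : I → Prop) (w : List I) : Prop := ∀ x ∈ w.tail, ¬ b x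

/-- the graph of the isomorphism -/
def Rel {I V : Type} {Γ : SimpleGraph V} (α α' : I → (Γ ≃g Γ)) (s s' : Γ ≃g Γ) :
    Subgroup ((Γ ≃g Γ) × (Γ ≃g Γ)) :=
  Subgroup.closure ({x | ∃ i, x = (α i, α' i)} ∪ {(s, s')})

/-- NF. Simultaneous normal form. All pairs `(E w * α j, E' w * α' j)`, `w` any list, are a set which
contains `(1, 1)` and is closed under left multiplication by `(α i, α' i)` (`α i * α k = α (m i k)`), by
`(s, s')` (`s = α e * s`), and by the inverses (`(α i)⁻¹ = α (v i)`, and `s⁻¹ = α (v (t e)) * s`, from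
`tt` at `e`), so it contains `Rel`. Reduction, by induction on the list: in `i :: u`, `u` reduced: if
`u = x :: u'` with `b x`, then `α i * s * α x * s = α i * α (t x) = α (m i (t x))` absorbs the next
letter, and the word gets shorter by two; all that remains is reduced. -/
def Stmt_NF : Prop :=
  ∀ (I V : Type) (Γ : SimpleGraph V) (o y : V) (m : I → I → I) (b : I → Prop) (t : I → I)
    (e : I) (v : I → I) (α α' : I → (Γ ≃g Γ)) (s s' : Γ ≃g Γ),
    Tab Γ o y m b t e v α s → Tab Γ o y m b t e v α' s' →
    ∀ x ∈ Rel α α' s s', ∃ w j, Redu b w ∧ x = (E α s w * α j, E α' s' w * α' j)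

/-- DST. Reduced words move `o` to distance equal to their length. Induction on `w = i :: u`:
`dist o (E w o) = dist o (α i (s (E u o))) = dist o (s (E u o)) = dist y (E u o)` (`s y = o`). If `u = []`
this is `1`. If `u = x :: u'`, `¬ b x`: by induction `dist o (E u o) = |u|`, and the neighbour `α x y ≠ y`
of `o` is closer to `E u o`: `dist (α x y) (α x (s (E u' o))) = dist y (s (E u' o)) = dist o (E u' o) =
|u'|` (`s o = y`). In a tree the neighbour closer to a vertex is unique (`Tr.closer_unique`), and
distances to adjacent vertices differ by one (`SimpleGraph.IsTree.dist_eq_dist_add_one_of_adj`), so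
`dist y (E u o) = |u| + 1`. Compare `Tr.ev_dist` in Conj.lean of helper94. -/
def Stmt_DST : Prop :=
  ∀ (I V : Type) (Γ : SimpleGraph V), Γ.IsTree → ∀ (o y : V), Γ.Adj o y →
    ∀ (m : I → I → I) (b : I → Prop) (t : I → I) (e : I) (v : I → I) (α : I → (Γ ≃g Γ))
      (s : Γ ≃g Γ), Tab Γ o y m b t e v α s → ∀ w : List I, Redu b w →
      Γ.dist o (E α s w o) = w.length

/-- CNJ. Equal tables give conjugate groups. By NF and DST: `(g, g') ∈ Rel`, `g o = o` imply `g = α i`,
`g' = α' i` (the word is empty), in particular `g' o = o`; symmetrically in `g'` (`Rel` with the roles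
exchanged is the image under `Prod.swap`). Every vertex is `g o` for some `(g, g') ∈ Rel`
(connectedness: neighbours of `g o` are `g (α i y) = g (α i (s o))`, `Tab.loc`). So
`f (g o) = g' o` is a well defined bijection `V → V` (if `g o = h o` then `h⁻¹ g` fixes `o`) preserving
adjacency (neighbours `g (α i (s o))` go to `g' (α' i (s' o)) = g' (α' i y)`), hence `a : Γ ≃g Γ` with
`a * g = g' * a` for `(g, g') ∈ Rel`. `H` is the first projection of `Rel`: for `g ∈ H` take
`(h, h') ∈ Rel` with `g o = h o`; `h⁻¹ g ∈ H` fixes `o`. Same for `H'`. Compare `Tr.sys_conj`. -/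
def Stmt_CNJ : Prop :=
  ∀ (I V : Type) (Γ : SimpleGraph V), Γ.IsTree → ∀ (o y : V), Γ.Adj o y →
    ∀ (m : I → I → I) (b : I → Prop) (t : I → I) (e : I) (v : I → I) (α α' : I → (Γ ≃g Γ))
      (s s' : Γ ≃g Γ), Tab Γ o y m b t e v α s → Tab Γ o y m b t e v α' s' →
    ∀ H H' : Subgroup (Γ ≃g Γ), (∀ g, (g ∈ H ∧ g o = o) ↔ ∃ i, g = α i) → s ∈ H →
      (∀ g, (g ∈ H' ∧ g o = o) ↔ ∃ i, g = α' i) → s' ∈ H' →
      ∃ a : Γ ≃g Γ, H' = H.map (MulAut.conj a).toMonoidHom

/-- FIN. Bounded stabilisers give finitely many classes. If `o` has no neighbour then `V` is a point and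
`Γ ≃g Γ` is trivial. Otherwise fix a neighbour `y`. For `H` choose a bijection `α` of `Fin n`,
`n = Nat.card {g // g ∈ H ∧ g o = o} ≤ M` (finite by FinStab), with the stabiliser, and `s ∈ H`
exchanging `o` and `y` (ArcT); `n` and the tables `m, b, t, e, v` on `Fin n` are finitely many data;
groups with the same data are conjugate (CNJ). Take one group for every datum that occurs. (If
`b i` then `s * α i * s` fixes `o`: `s o = y`, `α i y = y`, `s y = o`. `Tab.loc` from ArcT.) -/
def Stmt_FIN : Prop :=
  ∀ (V : Type) (Γ : SimpleGraph V), Γ.IsTree → ∀ (o : V) (M : ℕ),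
    FinCls (fun H : Subgroup (Γ ≃g Γ) => FinStab H ∧ ArcT H ∧
      Nat.card {g : Γ ≃g Γ // g ∈ H ∧ g o = o} ≤ M)

/-! ### Part 3: transitivity, regular groups -/

/-- ARC. `F` transitive, so the stabiliser of `x` in `H` is transitive on the neighbours of `x`
(LocAct). VTrans: an arc `(x, y)` is mapped to `(y, z)` by some `g`, then `z` to `x` by `H_y`: so every
arc can be reversed, and `VTrans` plus local transitivity gives ArcT. InvInv: one edge is reversed;
the set of vertices in the orbit of `x` under the group is closed under adjacency: all edges at `x` are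
reversed (conjugates), so all neighbours of a vertex of the orbit lie in the orbit. (See also
`arc_of_inv` in Pool/Agent/Work/MP_6d7bb4_helper94/Loc.lean or its uses in Main.lean.) In the case
InvInv every vertex has a neighbour. -/
def Stmt_ARC : Prop :=
  ∀ (Ω V : Type) (F : Subgroup (Equiv.Perm Ω)) (Γ : SimpleGraph V) (H : Subgroup (Γ ≃g Γ)),
    Γ.Connected → Transitive F → LocAct H F → VTrans H ∨ InvInv H → ArcT H ∧ VTrans H

/-- REG. If `F` is semiregular then `|H_o| ≤ |Ω|`. If `h ∈ H` fixes `x` and a neighbour of `x`, the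
permutation of `Ω` induced by `h` at `x` lies in `F` (LocAct, direction from right to left; the
permutation is `e ∘ h ∘ e⁻¹`) and has a fixed point, so it is trivial and `h` fixes all neighbours of
`x`. So `h` fixes everything (the set of `x` such that `h` fixes `x` and all its neighbours is closed
under adjacency). Hence, `y` a neighbour of `o`, `h ↦ e (h y)` is injective on `H_o`. If `o` has no
neighbour (`Ω` empty) then `V` is a point, `H_o` has one element: therefore the bound `|Ω| + 1`. -/
def Stmt_REG : Prop :=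
  ∀ (Ω V : Type) [Finite Ω] (F : Subgroup (Equiv.Perm Ω)) (Γ : SimpleGraph V)
    (H : Subgroup (Γ ≃g Γ)) (o : V), Γ.Connected → Semiregular F → LocAct H F →
    Nat.card {g : Γ ≃g Γ // g ∈ H ∧ g o = o} ≤ Nat.card Ω + 1

/-! ### Part 4: permutation groups (pure, no graphs) -/

/-- SP1. Let `N` be normal in `F`, transitive, with `[N, F] ≤ K`, `K` normal in `F`, `K` not transitive,
`F` semiprimitive. Then `F` is semiregular. Proof: `M = {f ∈ F : f x ∈ K x for all x}` is a normal
subgroup of `F`, contains the stabiliser `F_a` of every point `a`: for `f ∈ F_a` and `x = n a`, `n ∈ N`: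
`f x = f n a = [f, n] n f a = [f, n] x`, `[f, n] = f n f⁻¹ n⁻¹ ∈ K`. The orbits of `M` are contained in
those of `K`, so `M` is not transitive, hence semiregular, and `F_a = 1`. -/
def Stmt_SP1 : Prop :=
  ∀ (Ω : Type) (F K N : Subgroup (Equiv.Perm Ω)), Semiprim F → K ≤ F → N ≤ F →
    (∀ f ∈ F, ∀ k ∈ K, f * k * f⁻¹ ∈ K) → (∀ f ∈ F, ∀ n ∈ N, f * n * f⁻¹ ∈ N) →
    ¬ Transitive K → Transitive N → (∀ n ∈ N, ∀ f ∈ F, n * f * n⁻¹ * f⁻¹ ∈ K) → Semiregular F

/-- SEMI. `F` semiprimitive and not semiregular implies `prodAct F` semiprimitive. Transitive: clear. Let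
`N` be normal in `prodAct F`, not semiregular: some `κ ∈ N`, `κ ≠ 1`, has a fixed point. Let
`K = {k ∈ F : (k, 1) ∈ N}`, normal in `F`; conjugation by the swap shows `(1, k) ∈ N` for `k ∈ K`. If `K`
is transitive then so is `N`. Suppose `K` is not transitive, so `K` is semiregular; we get a
contradiction from SP1. Put `N1 = {n ∈ F : [n, f] ∈ K for all f ∈ F}`, a normal subgroup of `F`
with `[N1, F] ≤ K`; by SP1 it is enough that `N1` is transitive, i.e. (as `F` is semiprimitive) not
semiregular. (i) `κ = (k1, k2)`, `k1 a = a`, `k2 b = b`; by the swap we may assume `k1 ≠ 1`; the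
commutator of `κ` and `(f, 1)` is `([k1, f], 1) ∈ N`, so `k1 ∈ N1` is not the identity and fixes `a`.
(ii) `κ = (k1, k2) ρ : (x, y) ↦ (k1 y, k2 x)`. Then `κ (f, 1) κ⁻¹ (f, 1)⁻¹ = (f⁻¹, k2 f k2⁻¹) ∈ N` for
all `f ∈ F`, and the commutator of this with `(g, 1)` is `([f⁻¹, g], 1)`, so `[F, F] ≤ K` and `N1 = F`. -/
def Stmt_SEMI : Prop :=
  ∀ (Ω : Type) (F : Subgroup (Equiv.Perm Ω)), Semiprim F → ¬ Semiregular F → Semiprim (prodAct F)

/-- PRIM. `F` primitive and not semiregular implies `prodAct F` primitive. The relation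
`x, y` are fixed by the same elements of `F` is invariant, so it is equality or everything; if
everything, a non-trivial element with a fixed point would be the identity; so: for `a ≠ c` some
`f ∈ F` fixes `a` and moves `c`, or fixes `c` and moves `a`. (Symmetric version; to get `f` fixing `a`
and moving `c` use the relation `x ~ y iff F_x = F_y`, and conjugation when `Ω` is finite; or use the
invariant relation directly as follows.) Let `r` be an invariant equivalence relation of `prodAct F`,
`(a, b) r (c, d)` different; by the swap we may assume `a ≠ c`. If `f` fixes `a` and moves `c`, apply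
`(f, 1)`: `(a, b) r (f c, d)`, so `(c, d) r (f c, d)`; if `f` fixes `c` and moves `a` similarly
`(a, b) r (f a, b)`. So there are `x ≠ y` and `z` with `(x, z) r (y, z)`. The relation
`u ~ v iff (u, z) r (v, z)` on `Ω` is invariant under `F` and not equality, so it is everything; by
`(1, g)` the same for all `z`, by the swap `(z, u) r (z, v)` for all; so `r` is everything. -/
def Stmt_PRIM : Prop :=
  ∀ (Ω : Type) (F : Subgroup (Equiv.Perm Ω)), Prim F → ¬ Semiregular F → Prim (prodAct F)

/-- The theorem. -/
def Stmt_MAIN : Prop :=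
  (∀ (Ω : Type) [Fintype Ω] (F : Subgroup (Equiv.Perm Ω)), Transitive F → Q1 (prodAct F) → PSV F) ∧
  (∀ (Ω : Type) [Fintype Ω] (F : Subgroup (Equiv.Perm Ω)), Semiprim F → ¬ Semiregular F →
    Semiprim (prodAct F)) ∧
  (∀ (Ω : Type) [Fintype Ω] (F : Subgroup (Equiv.Perm Ω)), Prim F → ¬ Semiregular F →
    Prim (prodAct F)) ∧
  ((∀ (Ω : Type) [Fintype Ω] (F : Subgroup (Equiv.Perm Ω)), Semiprim F → Q1 F) ↔
    ∀ (Ω : Type) [Fintype Ω] (F : Subgroup (Equiv.Perm Ω)), Semiprim F → PSV F) ∧
  ((∀ (Ω : Type) [Fintype Ω] (F : Subgroup (Equiv.Perm Ω)), Prim F → Q1 F) ↔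
    ∀ (Ω : Type) [Fintype Ω] (F : Subgroup (Equiv.Perm Ω)), Prim F → PSV F)

end Pool.Agent.Work.MP_6d7bb4_psv
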